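import Pool.Agent.R371.MB.Defs
import Pool.Agent.H677R3.RegComb

/-!
Multigraded decomposition of the Koszul homology of a monomial ideal.
-/

set_option autoImplicit false

namespace Pool.Agent.R371.MB

open MvPolynomial Finset
open Pool.Agent.H677R3.EdgeReg (sg cd cd_cd cd_zero cd_add cd_sub cd_smul)

section ring

variable {k : Type*} [CommRing k] {n : ℕ}

/-- exponent of the squarefree monomial of `T` -/
noncomputable def ind (T : Finset (Fin n)) : Fin n →₀ ℕ :=
  Finsupp.equivFunOnFinite.symm (fun v => if v ∈ T then 1 else 0)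

@[simp] lemma ind_apply (T : Finset (Fin n)) (v : Fin n) : ind T v = if v ∈ T then 1 else 0 := rfl

lemma ind_insert {T : Finset (Fin n)} {j : Fin n} (hj : j ∉ T) :
    ind (insert j T) = ind T + Finsupp.single j 1 := by
  ext v
  rw [Finsupp.add_apply, ind_apply, ind_apply, Finsupp.single_apply]
  by_cases h : v = j
  · subst h; simp [hj]
  · rw [if_neg (fun h' : j = v => h h'.symm)]
    simp [h]

lemma ind_mono {T T' : Finset (Fin n)} (h : T ⊆ T') : ind T ≤ ind T' := by
  intro v
  rw [ind_apply, ind_apply]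
  by_cases hv : v ∈ T
  · rw [if_pos hv, if_pos (h hv)]
  · rw [if_neg hv]; exact Nat.zero_le _

lemma degree_ind (T : Finset (Fin n)) : (ind T).degree = T.card := by
  rw [Finsupp.degree_eq_sum]
  simp

/-- multigraded component of a chain -/
noncomputable def comp (f : Finset (Fin n) → MvPolynomial (Fin n) k) (b : Fin n →₀ ℕ)
    (T : Finset (Fin n)) : k :=
  open Classical in if ind T ≤ b then (f T).coeff (b - ind T) else 0

lemma coeff_neg_one_pow_mul (m : ℕ) (p : MvPolynomial (Fin n) k) (c : Fin n →₀ ℕ) :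
    ((-1) ^ m * p).coeff c = (-1) ^ m * p.coeff c := by
  have : ((-1 : MvPolynomial (Fin n) k)) ^ m = MvPolynomial.C ((-1) ^ m) := by simp
  rw [this, MvPolynomial.coeff_C_mul]

lemma comp_kD (f : Finset (Fin n) → MvPolynomial (Fin n) k) (b : Fin n →₀ ℕ)
    (T : Finset (Fin n)) : comp (kD k n f) b T = cd (comp f b) T := by
  classical
  unfold comp cd
  split_ifs with h
  · show (∑ j ∈ Tᶜ, (-1) ^ (T.filter (· < j)).card * (X j * f (insert j T))).coeff (b - ind T) = _
    rw [MvPolynomial.coeff_sum]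
    refine Finset.sum_congr rfl fun j hj => ?_
    have hj' : j ∉ T := by simpa using hj
    rw [coeff_neg_one_pow_mul, MvPolynomial.coeff_X_mul']
    have hiff : j ∈ (b - ind T).support ↔ ind (insert j T) ≤ b := by
      rw [Finsupp.mem_support_iff, ind_insert hj', Finsupp.le_def]
      constructor
      · intro h1 v
        have h2 := h v
        simp only [Finsupp.coe_add, Pi.add_apply, Finsupp.single_apply]
        by_cases hv : j = v
        · subst hv
          simp only [Finsupp.coe_tsub, Pi.sub_apply] at h1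
          simp only [if_true]; omega
        · rw [if_neg hv]; omega
      · intro h1
        have h2 := h1 j
        simp only [Finsupp.coe_add, Pi.add_apply, Finsupp.single_apply, if_true] at h2
        simp only [Finsupp.coe_tsub, Pi.sub_apply]
        omega
    unfold sg
    congr 1
    beta_reduce
    by_cases h1 : ind (insert j T) ≤ b
    · rw [if_pos (hiff.mpr h1), if_pos h1, ind_insert hj', tsub_tsub]
    · rw [if_neg (fun h2 => h1 (hiff.mp h2)), if_neg h1]
  · symm
    refine Finset.sum_eq_zero fun j hj => ?_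
    have hj' : j ∉ T := by simpa using hj
    beta_reduce
    rw [if_neg, mul_zero]
    intro h1
    apply h
    rw [ind_insert hj'] at h1
    exact le_trans (by simp) h1

lemma comp_add_ind (f : Finset (Fin n) → MvPolynomial (Fin n) k) (c : Fin n →₀ ℕ)
    (T : Finset (Fin n)) : comp f (c + ind T) T = (f T).coeff c := by
  unfold comp
  rw [if_pos (by simp), add_tsub_cancel_right]

lemma comp_add (f g : Finset (Fin n) → MvPolynomial (Fin n) k) (b : Fin n →₀ ℕ) :
    comp (f + g) b = comp f b + comp g b := by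
  funext T
  simp only [comp, Pi.add_apply, MvPolynomial.coeff_add]
  split_ifs <;> simp

lemma comp_smul (r : k) (f : Finset (Fin n) → MvPolynomial (Fin n) k) (b : Fin n →₀ ℕ) :
    comp (r • f) b = r • comp f b := by
  funext T
  simp only [comp, Pi.smul_apply, MvPolynomial.coeff_smul]
  split_ifs <;> simp

lemma ext_comp {f g : Finset (Fin n) → MvPolynomial (Fin n) k}
    (h : ∀ b, comp f b = comp g b) : f = g := by
  funext T
  ext c
  rw [← comp_add_ind, ← comp_add_ind, h]

/-- the combinatorial differential as a linear map -/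
def cdL (k : Type*) [CommRing k] (n : ℕ) : (Finset (Fin n) → k) →ₗ[k] (Finset (Fin n) → k) where
  toFun a T := cd a T
  map_add' a b := by
    funext T
    exact cd_add a b T
  map_smul' r a := by
    funext T
    exact cd_smul r a T

@[simp] lemma cdL_apply (a : Finset (Fin n) → k) (T : Finset (Fin n)) : cdL k n a T = cd a T := rfl

/-- chains of the family `Q` in size `i` -/
def Ch (k : Type*) [CommRing k] (Q : Finset (Fin n) → Prop) (i : ℕ) :
    Submodule k (Finset (Fin n) → k) where
  carrier := {c | ∀ T, c T ≠ 0 → Q T ∧ T.card = i}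
  zero_mem' := fun T h => absurd rfl h
  add_mem' := by
    intro a b ha hb T h
    by_cases h1 : a T ≠ 0
    · exact ha T h1
    · push Not at h1
      refine hb T fun h2 => h ?_
      simp [h1, h2]
  smul_mem' := by
    intro r a ha T h
    refine ha T fun h1 => h ?_
    simp [h1]

/-- the combinatorial complex of multidegree `b` of the monomial ideal `U` -/
def Qf (U : (Fin n →₀ ℕ) → Prop) (b : Fin n →₀ ℕ) (T : Finset (Fin n)) : Prop :=
  ind T ≤ b ∧ U (b - ind T)

/-- assembling a chain from its components -/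
noncomputable def asm (B : Finset (Fin n →₀ ℕ)) (G : (Fin n →₀ ℕ) → Finset (Fin n) → k)
    (T : Finset (Fin n)) : MvPolynomial (Fin n) k :=
  ∑ b ∈ B, MvPolynomial.monomial (b - ind T) (G b T)

lemma comp_asm (B : Finset (Fin n →₀ ℕ)) (G : (Fin n →₀ ℕ) → Finset (Fin n) → k)
    (hG : ∀ b T, G b T ≠ 0 → ind T ≤ b) (b : Fin n →₀ ℕ) :
    comp (asm B G) b = if b ∈ B then G b else 0 := by
  classical
  funext T
  have key : ∀ b' ∈ B, ind T ≤ b → (MvPolynomial.monomial (b' - ind T) (G b' T)).coeff (b - ind T) =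
      if b' = b then G b T else 0 := by
    intro b' _ hle
    rw [MvPolynomial.coeff_monomial]
    by_cases h0 : G b' T = 0
    · by_cases h1 : b' = b
      · subst h1; simp [h0]
      · rw [h0]; simp [h1]
    · have hle' := hG b' T h0
      by_cases h1 : b' = b
      · subst h1; simp
      · rw [if_neg h1, if_neg]
        intro h2
        apply h1
        rw [← tsub_add_cancel_of_le hle', ← tsub_add_cancel_of_le hle, h2]
  unfold comp
  by_cases hle : ind T ≤ b
  · rw [if_pos hle]
    simp only [asm]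
    rw [MvPolynomial.coeff_sum, Finset.sum_congr rfl (fun b' hb' => key b' hb' hle)]
    rw [Finset.sum_ite_eq' B b]
    split_ifs <;> rfl
  · rw [if_neg hle]
    split_ifs with hb
    · by_contra h
      exact hle (hG b T (fun h' => h h'.symm))
    · rfl

/-- chains with all multidegrees in `D` -/
def chainsP (I : Ideal (MvPolynomial (Fin n) k)) (D : (Fin n →₀ ℕ) → Prop) (i : ℕ) :
    Submodule k (Finset (Fin n) → MvPolynomial (Fin n) k) where
  carrier := {f | f ∈ chains I i ∧ ∀ T, ∀ b ∈ (f T).support, D (b + ind T)}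
  zero_mem' := ⟨Submodule.zero_mem _, fun T b hb => by simp at hb⟩
  add_mem' := by
    classical
    rintro f g ⟨hf, hf'⟩ ⟨hg, hg'⟩
    refine ⟨Submodule.add_mem _ hf hg, fun T b hb => ?_⟩
    rcases Finset.mem_union.1 (MvPolynomial.support_add hb) with h | h
    · exact hf' T b h
    · exact hg' T b h
  smul_mem' := by
    rintro c f ⟨hf, hf'⟩
    refine ⟨Submodule.smul_mem _ _ hf, fun T b hb => ?_⟩
    exact hf' T b (MvPolynomial.support_smul hb)

lemma chainsP_true (I : Ideal (MvPolynomial (Fin n) k)) (i : ℕ) :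
    chainsP I (fun _ => True) i = chains I i := by
  ext f
  exact ⟨fun h => h.1, fun h => ⟨h, fun _ _ _ => trivial⟩⟩

lemma chainsP_degree (I : Ideal (MvPolynomial (Fin n) k)) (i j : ℕ) :
    chainsP I (fun b => b.degree = j) i = chainsDeg I i j := by
  ext f
  constructor
  · rintro ⟨h1, h2⟩
    refine ⟨h1, fun T b hb => ?_⟩
    have : (b + ind T).degree = j := h2 T b hb
    rwa [map_add, degree_ind] at this
  · rintro ⟨h1, h2⟩
    refine ⟨h1, fun T b hb => ?_⟩
    change (b + ind T).degree = j
    rw [map_add, degree_ind]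
    exact h2 T b hb

variable {I : Ideal (MvPolynomial (Fin n) k)} {U D : (Fin n →₀ ℕ) → Prop}

/-- chains and their components -/
lemma mem_chainsP (hI : ∀ p, p ∈ I ↔ ∀ c ∈ p.support, U c) {i : ℕ}
    {f : Finset (Fin n) → MvPolynomial (Fin n) k} :
    f ∈ chainsP I D i ↔ ∀ b, comp f b ∈ Ch k (Qf U b) i ∧ (comp f b ≠ 0 → D b) := by
  constructor
  · rintro ⟨h1, h2⟩ b
    have key : ∀ T, comp f b T ≠ 0 → (Qf U b T ∧ T.card = i) ∧ D b := by
      intro T h
      unfold comp at h
      split_ifs at h with hle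
      · have hs : b - ind T ∈ (f T).support := MvPolynomial.mem_support_iff.mpr h
        have hc : T.card = i := by
          by_contra hne
          rw [(h1 T).2 hne] at h
          simp at h
        refine ⟨⟨⟨hle, (hI _).1 (h1 T).1 _ hs⟩, hc⟩, ?_⟩
        have := h2 T _ hs
        rwa [tsub_add_cancel_of_le hle] at this
      · exact absurd rfl h
    refine ⟨fun T h => (key T h).1, fun h => ?_⟩
    by_contra hD
    apply h
    funext T
    by_contra h3
    exact hD (key T h3).2
  · intro h
    refine ⟨fun T => ⟨?_, ?_⟩, ?_⟩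
    · rw [hI]
      intro c hc
      rw [MvPolynomial.mem_support_iff, ← comp_add_ind] at hc
      have := ((h (c + ind T)).1 T hc).1.2
      rwa [add_tsub_cancel_right] at this
    · intro hT
      ext c
      rw [← comp_add_ind, MvPolynomial.coeff_zero]
      by_contra h3
      exact hT ((h (c + ind T)).1 T h3).2
    · intro T b hb
      rw [MvPolynomial.mem_support_iff, ← comp_add_ind] at hb
      apply (h (b + ind T)).2
      intro h3
      rw [h3] at hb
      exact hb rfl

lemma finite_comp (f : Finset (Fin n) → MvPolynomial (Fin n) k) :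
    ∃ B : Finset (Fin n →₀ ℕ), ∀ b, b ∉ B → comp f b = 0 := by
  classical
  refine ⟨Finset.univ.biUnion (fun T => (f T).support.image (· + ind T)), fun b hb => ?_⟩
  funext T
  by_contra h
  apply hb
  unfold comp at h
  split_ifs at h with hle
  · refine Finset.mem_biUnion.mpr ⟨T, Finset.mem_univ _, Finset.mem_image.mpr ⟨b - ind T,
      MvPolynomial.mem_support_iff.mpr h, tsub_add_cancel_of_le hle⟩⟩
  · exact absurd rfl h

lemma Ch_le {Q : Finset (Fin n) → Prop} {i : ℕ} {c : Finset (Fin n) → k} (hc : c ∈ Ch k Q i)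
    {T : Finset (Fin n)} (h : c T ≠ 0) : Q T := (hc T h).1

/-- boundaries and their components -/
lemma mem_boundariesP (hI : ∀ p, p ∈ I ↔ ∀ c ∈ p.support, U c) {i : ℕ}
    {f : Finset (Fin n) → MvPolynomial (Fin n) k} :
    f ∈ (chainsP I D i).map (kD k n) ↔
      ∀ b, comp f b ∈ (Ch k (Qf U b) i).map (cdL k n) ∧ (comp f b ≠ 0 → D b) := by
  classical
  constructor
  · rintro ⟨g, hg, rfl⟩ b
    rw [SetLike.mem_coe, mem_chainsP hI] at hg
    have h1 : comp (kD k n g) b = cdL k n (comp g b) := by
      funext T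
      rw [comp_kD]; rfl
    refine ⟨⟨comp g b, (hg b).1, h1.symm⟩, fun h => (hg b).2 fun h3 => h ?_⟩
    rw [h1, h3, map_zero]
  · intro h
    have hex : ∀ b, ∃ g ∈ Ch k (Qf U b) i, cdL k n g = comp f b ∧ (comp f b = 0 → g = 0) := by
      intro b
      by_cases h0 : comp f b = 0
      · exact ⟨0, Submodule.zero_mem _, by rw [map_zero, h0], fun _ => rfl⟩
      · obtain ⟨g, hg, hg2⟩ := (h b).1
        exact ⟨g, hg, hg2, fun h' => absurd h' h0⟩
    choose G hG1 hG2 hG3 using hex
    obtain ⟨B, hB⟩ := finite_comp f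
    have hG : ∀ b T, G b T ≠ 0 → ind T ≤ b := fun b T hne => (hG1 b T hne).1.1
    refine ⟨asm B G, ?_, ?_⟩
    · rw [SetLike.mem_coe, mem_chainsP hI]
      intro b
      rw [comp_asm B G hG]
      split_ifs with hb
      · refine ⟨hG1 b, fun h3 => (h b).2 fun h4 => h3 (hG3 b h4)⟩
      · exact ⟨Submodule.zero_mem _, fun h3 => absurd rfl h3⟩
    · apply ext_comp
      intro b
      have h1 : comp (kD k n (asm B G)) b = cdL k n (comp (asm B G) b) := by
        funext T
        rw [comp_kD]; rfl
      rw [h1, comp_asm B G hG]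
      split_ifs with hb
      · exact hG2 b
      · rw [map_zero, hB b hb]

lemma mem_ker_kD {f : Finset (Fin n) → MvPolynomial (Fin n) k} :
    f ∈ LinearMap.ker (kD k n) ↔ ∀ b, comp f b ∈ LinearMap.ker (cdL k n) := by
  have h1 : ∀ b, comp (kD k n f) b = cdL k n (comp f b) := by
    intro b
    funext T
    rw [comp_kD]; rfl
  have h0 : ∀ b : Fin n →₀ ℕ, comp (0 : Finset (Fin n) → MvPolynomial (Fin n) k) b = 0 := by
    intro b
    funext T
    simp [comp]
  constructor
  · intro h b
    rw [LinearMap.mem_ker] at h ⊢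
    rw [← h1, h, h0]
  · intro h
    rw [LinearMap.mem_ker]
    apply ext_comp
    intro b
    rw [h1, h0]
    exact h b

end ring

section field

variable (k : Type*) [Field k] {n : ℕ}

/-- dimension of the homology of the family `Q` in size `i` -/
noncomputable def hd (Q : Finset (Fin n) → Prop) (i : ℕ) : ℕ :=
  Module.finrank k (↥(Ch k Q i ⊓ LinearMap.ker (cdL k n)) ⧸
    ((Ch k Q (i + 1)).map (cdL k n)).submoduleOf (Ch k Q i ⊓ LinearMap.ker (cdL k n)))

variable {k}

lemma le_of_hd_eq_zero {Q : Finset (Fin n) → Prop} {i : ℕ} (h : hd k Q i = 0) :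
    Ch k Q i ⊓ LinearMap.ker (cdL k n) ≤ (Ch k Q (i + 1)).map (cdL k n) := by
  unfold hd at h
  rw [Module.finrank_zero_iff, Submodule.Quotient.subsingleton_iff,
    Submodule.submoduleOf_eq_top] at h
  exact h

lemma finrank_quot_pi {V : Type*} [AddCommGroup V] [Module k V] {ι : Type*} [Fintype ι]
    {N : ι → Type*} [∀ i, AddCommGroup (N i)] [∀ i, Module k (N i)] [∀ i, Module.Finite k (N i)]
    (Φ : V →ₗ[k] ∀ i, N i) (B : Submodule k V) (hk : LinearMap.ker Φ = B)
    (hs : Function.Surjective Φ) :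
    Module.finrank k (V ⧸ B) = ∑ i, Module.finrank k (N i) := by
  subst hk
  rw [LinearEquiv.finrank_eq (LinearMap.quotKerEquivOfSurjective Φ hs),
    Module.finrank_pi_fintype]

lemma finrank_abs {V W ι : Type*} [AddCommGroup V] [Module k V] [AddCommGroup W] [Module k W]
    [Module.Finite k W] (C : ι → V →ₗ[k] W) (F : Finset ι) (Z B : Submodule k V)
    (z b : ι → Submodule k W) (h1 : ∀ f ∈ Z, ∀ i, C i f ∈ z i)
    (h2 : ∀ f ∈ Z, f ∈ B ↔ ∀ i ∈ F, C i f ∈ b i)
    (h3 : ∀ y : ι → W, (∀ i ∈ F, y i ∈ z i) → ∃ f ∈ Z, ∀ i ∈ F, C i f = y i) :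
    Module.finrank k (↥Z ⧸ B.submoduleOf Z) =
      ∑ i ∈ F, Module.finrank k (↥(z i) ⧸ (b i).submoduleOf (z i)) := by
  classical
  let cl : ∀ i, Z →ₗ[k] z i := fun i => (C i).restrict (fun f hf => h1 f hf i)
  let Φ : Z →ₗ[k] (∀ i : F, (z i ⧸ (b i).submoduleOf (z i))) :=
    LinearMap.pi fun i => ((b i).submoduleOf (z i)).mkQ ∘ₗ cl i
  have hΦ : ∀ (f : Z) (i : F), Φ f i = 0 ↔ C i f.1 ∈ b i := by
    intro f i
    change Submodule.Quotient.mk (cl i f) = 0 ↔ _
    rw [Submodule.Quotient.mk_eq_zero]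
    rfl
  have hker : LinearMap.ker Φ = B.submoduleOf Z := by
    ext f
    rw [LinearMap.mem_ker]
    change _ ↔ f.1 ∈ B
    rw [h2 f.1 f.2]
    constructor
    · intro h i hi
      exact (hΦ f ⟨i, hi⟩).1 (by rw [h]; rfl)
    · intro h
      funext i
      exact (hΦ f i).2 (h i.1 i.2)
  have hsurj : Function.Surjective Φ := by
    intro y
    have hex : ∀ i : F, ∃ c : z i, ((b i).submoduleOf (z i)).mkQ c = y i := fun i =>
      Submodule.mkQ_surjective _ (y i)
    choose c hc using hex
    obtain ⟨f, hf, hf2⟩ := h3 (fun i => if h : i ∈ F then (c ⟨i, h⟩).1 else 0) (by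
      intro i hi
      rw [dif_pos hi]
      exact (c ⟨i, hi⟩).2)
    refine ⟨⟨f, hf⟩, ?_⟩
    funext i
    rw [← hc i]
    change ((b i).submoduleOf (z i)).mkQ (cl i ⟨f, hf⟩) = _
    congr 1
    apply Subtype.ext
    change C i f = _
    rw [hf2 i i.2, dif_pos i.2]
  rw [finrank_quot_pi Φ _ hker hsurj]
  exact Finset.sum_coe_sort F (fun i => Module.finrank k (↥(z i) ⧸ (b i).submoduleOf (z i)))

variable {I : Ideal (MvPolynomial (Fin n) k)} {U D : (Fin n →₀ ℕ) → Prop}

/-- the multigraded decomposition of Koszul homology -/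
theorem finrank_eq_sum (hI : ∀ p, p ∈ I ↔ ∀ c ∈ p.support, U c) (i : ℕ)
    (F : Finset (Fin n →₀ ℕ)) (hF : ∀ b ∈ F, D b) (hF' : ∀ b, D b → b ∉ F → hd k (Qf U b) i = 0) :
    Module.finrank k (↥(chainsP I D i ⊓ LinearMap.ker (kD k n)) ⧸
      ((chainsP I D (i + 1)).map (kD k n)).submoduleOf (chainsP I D i ⊓ LinearMap.ker (kD k n))) =
      ∑ b ∈ F, hd k (Qf U b) i := by
  classical
  have hmem : ∀ f ∈ chainsP I D i ⊓ LinearMap.ker (kD k n), ∀ b,
      comp f b ∈ Ch k (Qf U b) i ⊓ LinearMap.ker (cdL k n) := by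
    intro f hf b
    exact ⟨((mem_chainsP hI).1 hf.1 b).1, mem_ker_kD.1 hf.2 b⟩
  refine finrank_abs (fun b => (⟨⟨fun f => comp f b, fun f g => comp_add f g b⟩,
    fun r f => comp_smul r f b⟩ :
    (Finset (Fin n) → MvPolynomial (Fin n) k) →ₗ[k] (Finset (Fin n) → k))) F _ _
    (fun b => Ch k (Qf U b) i ⊓ LinearMap.ker (cdL k n))
    (fun b => (Ch k (Qf U b) (i + 1)).map (cdL k n)) hmem ?_ ?_
  · intro f hf
    rw [mem_boundariesP hI]
    constructor
    · intro h b _
      exact (h b).1
    · intro h b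
      refine ⟨?_, ((mem_chainsP hI).1 hf.1 b).2⟩
      by_cases hb : b ∈ F
      · exact h b hb
      · by_cases hD : D b
        · exact le_of_hd_eq_zero (hF' b hD hb) (hmem f hf b)
        · have : comp f b = 0 := by
            by_contra h3
            exact hD (((mem_chainsP hI).1 hf.1 b).2 h3)
          rw [this]
          exact Submodule.zero_mem _
  · intro y hy
    have hG0 : ∀ b, (if b ∈ F then y b else 0) ∈ Ch k (Qf U b) i ⊓ LinearMap.ker (cdL k n) := by
      intro b
      split_ifs with h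
      · exact hy b h
      · exact Submodule.zero_mem _
    have hG : ∀ b T, (if b ∈ F then y b else 0 : Finset (Fin n) → k) T ≠ 0 → ind T ≤ b :=
      fun b T hne => ((hG0 b).1 T hne).1.1
    have hcomp := comp_asm F (fun b => if b ∈ F then y b else 0) hG
    refine ⟨asm F (fun b => if b ∈ F then y b else 0), ⟨?_, ?_⟩, ?_⟩
    · refine (mem_chainsP hI).2 fun b => ?_
      rw [hcomp]
      split_ifs with h
      · exact ⟨(hy b h).1, fun _ => hF b h⟩
      · exact ⟨Submodule.zero_mem _, fun h3 => absurd rfl h3⟩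
    · refine mem_ker_kD.2 fun b => ?_
      rw [hcomp]
      split_ifs with h
      · exact (hy b h).2
      · exact Submodule.zero_mem _
    · intro b hb
      change comp (asm F (fun b => if b ∈ F then y b else 0)) b = y b
      rw [hcomp, if_pos hb, if_pos hb]

/-- total Betti numbers -/
theorem betti_eq_sum (hI : ∀ p, p ∈ I ↔ ∀ c ∈ p.support, U c) (i : ℕ)
    (F : Finset (Fin n →₀ ℕ)) (hF' : ∀ b, b ∉ F → hd k (Qf U b) i = 0) :
    betti k I i = ∑ b ∈ F, hd k (Qf U b) i := by
  have := finrank_eq_sum (D := fun _ => True) hI i F (fun _ _ => trivial) (fun b _ hb => hF' b hb)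
  rw [chainsP_true, chainsP_true] at this
  exact this

/-- graded Betti numbers -/
theorem bettiDeg_eq_sum (hI : ∀ p, p ∈ I ↔ ∀ c ∈ p.support, U c) (i j : ℕ)
    (F : Finset (Fin n →₀ ℕ)) (hF : ∀ b ∈ F, b.degree = j)
    (hF' : ∀ b, b.degree = j → b ∉ F → hd k (Qf U b) i = 0) :
    bettiDeg k I i j = ∑ b ∈ F, hd k (Qf U b) i := by
  have := finrank_eq_sum (D := fun b => b.degree = j) hI i F hF hF'
  rw [chainsP_degree, chainsP_degree] at this
  exact this

end field

end Pool.Agent.R371.MB
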