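import Pool.Agent.R371.MB.Pow

/-!
Chains on subsets of `Fin (n + 1)` and on subsets of `Fin n`.
-/

set_option autoImplicit false
set_option linter.unusedSectionVars false

namespace Pool.Agent.R371.MB

open Finset MvPolynomial
open Pool.Agent.H677R3.EdgeReg (sg cd cd_cd cd_zero cd_add cd_sub cd_smul hv homotopy)

variable {k : Type} [Field k] {n : ℕ}

/-- a set of old variables among the new variables -/
def up (T : Finset (Fin n)) : Finset (Fin (n + 1)) := T.map Fin.castSuccEmb

/-- the same with the last variable -/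
def upl (T : Finset (Fin n)) : Finset (Fin (n + 1)) := insert (Fin.last n) (up T)

lemma castSucc_mem_up {T : Finset (Fin n)} {v : Fin n} : v.castSucc ∈ up T ↔ v ∈ T := by
  simp [up]

lemma last_notMem_up {T : Finset (Fin n)} : Fin.last n ∉ up T := by
  simp [up, Fin.castSucc_ne_last]

lemma castSucc_mem_upl {T : Finset (Fin n)} {v : Fin n} : v.castSucc ∈ upl T ↔ v ∈ T := by
  simp [upl, castSucc_mem_up, Fin.castSucc_ne_last]

lemma last_mem_upl {T : Finset (Fin n)} : Fin.last n ∈ upl T := by
  simp [upl]

lemma card_up (T : Finset (Fin n)) : (up T).card = T.card := by simp [up]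

lemma card_upl (T : Finset (Fin n)) : (upl T).card = T.card + 1 := by
  rw [upl, Finset.card_insert_of_notMem last_notMem_up, card_up]

lemma up_or_upl (T : Finset (Fin (n + 1))) : ∃ T' : Finset (Fin n), T = up T' ∨ T = upl T' := by
  classical
  refine ⟨univ.filter fun v => v.castSucc ∈ T, ?_⟩
  by_cases h : Fin.last n ∈ T
  · right
    ext v
    refine Fin.lastCases ?_ (fun v => ?_) v
    · simp [h, last_mem_upl]
    · simp [castSucc_mem_upl]
  · left
    ext v
    refine Fin.lastCases ?_ (fun v => ?_) v
    · simp [h, last_notMem_up]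
    · simp [castSucc_mem_up]

lemma insert_up (T : Finset (Fin n)) (j : Fin n) : insert j.castSucc (up T) = up (insert j T) := by
  ext v
  refine Fin.lastCases ?_ (fun v => ?_) v
  · simp [last_notMem_up, (Fin.castSucc_ne_last j).symm]
  · simp [castSucc_mem_up]

lemma insert_upl (T : Finset (Fin n)) (j : Fin n) :
    insert j.castSucc (upl T) = upl (insert j T) := by
  ext v
  refine Fin.lastCases ?_ (fun v => ?_) v
  · simp [last_mem_upl]
  · simp [castSucc_mem_upl]

lemma compl_up (T : Finset (Fin n)) : (up T)ᶜ = insert (Fin.last n) (up Tᶜ) := by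
  ext v
  refine Fin.lastCases ?_ (fun v => ?_) v
  · simp [last_notMem_up]
  · simp [castSucc_mem_up, Fin.castSucc_ne_last]

lemma compl_upl (T : Finset (Fin n)) : (upl T)ᶜ = up Tᶜ := by
  ext v
  refine Fin.lastCases ?_ (fun v => ?_) v
  · simp [last_notMem_up, last_mem_upl]
  · simp [castSucc_mem_up, castSucc_mem_upl]

lemma sg_up (T : Finset (Fin n)) (j : Fin n) : sg k j.castSucc (up T) = sg k j T := by
  unfold sg
  congr 1
  rw [← card_up (T.filter (· < j))]
  congr 1
  ext v
  refine Fin.lastCases ?_ (fun v => ?_) v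
  · simp [last_notMem_up]
  · simp [castSucc_mem_up]

lemma sg_upl (T : Finset (Fin n)) (j : Fin n) : sg k j.castSucc (upl T) = sg k j T := by
  unfold sg
  congr 1
  rw [← card_up (T.filter (· < j))]
  congr 1
  ext v
  refine Fin.lastCases ?_ (fun v => ?_) v
  · simp [last_notMem_up, last_mem_upl, Fin.castSucc_lt_last, not_lt_of_gt]
  · simp [castSucc_mem_up, castSucc_mem_upl]

lemma sg_last (T : Finset (Fin n)) : sg k (Fin.last n) (up T) = (-1) ^ T.card := by
  unfold sg
  congr 1
  rw [← card_up T]
  congr 1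
  ext v
  refine Fin.lastCases ?_ (fun v => ?_) v
  · simp [last_notMem_up]
  · simp [castSucc_mem_up, Fin.castSucc_lt_last]

lemma sum_up (T : Finset (Fin n)) (f : Fin (n + 1) → k) :
    ∑ j ∈ up T, f j = ∑ j ∈ T, f j.castSucc := by
  rw [up, Finset.sum_map]
  rfl

lemma cd_up (c : Finset (Fin (n + 1)) → k) (T : Finset (Fin n)) :
    cd c (up T) = cd (fun T' => c (up T')) T + (-1) ^ T.card * c (upl T) := by
  unfold cd
  rw [compl_up, Finset.sum_insert last_notMem_up, sum_up, sg_last, add_comm]
  congr 1
  refine Finset.sum_congr rfl fun j _ => ?_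
  rw [sg_up, insert_up]

lemma cd_upl (c : Finset (Fin (n + 1)) → k) (T : Finset (Fin n)) :
    cd c (upl T) = cd (fun T' => c (upl T')) T := by
  unfold cd
  rw [compl_upl, sum_up]
  refine Finset.sum_congr rfl fun j _ => ?_
  rw [sg_upl, insert_upl]

/-- the old part of a set of new variables -/
def down (S : Finset (Fin (n + 1))) : Finset (Fin n) :=
  open Classical in univ.filter fun v => v.castSucc ∈ S

lemma down_up (T : Finset (Fin n)) : down (up T) = T := by
  ext v
  simp [down, castSucc_mem_up]

lemma down_upl (T : Finset (Fin n)) : down (upl T) = T := by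
  ext v
  simp [down, castSucc_mem_upl]

/-- a chain with given parts -/
def glue (a y : Finset (Fin n) → k) (S : Finset (Fin (n + 1))) : k :=
  open Classical in if Fin.last n ∈ S then y (down S) else a (down S)

lemma glue_up (a y : Finset (Fin n) → k) (T : Finset (Fin n)) : glue a y (up T) = a T := by
  rw [glue, if_neg last_notMem_up, down_up]

lemma glue_upl (a y : Finset (Fin n) → k) (T : Finset (Fin n)) : glue a y (upl T) = y T := by
  rw [glue, if_pos last_mem_upl, down_upl]

lemma cd_hv (v : Fin n) (e : Finset (Fin n) → k) (he : ∀ T, cd e T = 0) (T : Finset (Fin n)) :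
    cd (hv v e) T = e T := by
  have h5 := homotopy v e T
  have h6 : hv v (cd e) T = 0 := by
    unfold hv
    split_ifs with h
    · rw [he, mul_zero]
    · rfl
  rw [h6, add_zero] at h5
  exact h5

lemma hv_ne_zero {v : Fin n} {e : Finset (Fin n) → k} {T : Finset (Fin n)} (h : hv v e T ≠ 0) :
    v ∈ T ∧ e (T.erase v) ≠ 0 := by
  unfold hv at h
  split_ifs at h with h1
  · exact ⟨h1, fun h2 => h (by rw [h2, mul_zero])⟩
  · exact absurd rfl h

lemma hv_supp {v : Fin n} {e : Finset (Fin n) → k} {W : Finset (Fin n)} (hvW : v ∈ W) {m : ℕ}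
    (he : ∀ T, e T ≠ 0 → T ⊆ W ∧ T.card = m) {T : Finset (Fin n)} (h : hv v e T ≠ 0) :
    T ⊆ W ∧ T.card = m + 1 := by
  obtain ⟨h1, h2⟩ := hv_ne_zero h
  obtain ⟨h3, h4⟩ := he _ h2
  refine ⟨?_, ?_⟩
  · intro x hx
    by_cases hxv : x = v
    · exact hxv ▸ hvW
    · exact h3 (Finset.mem_erase.mpr ⟨hxv, hx⟩)
  · rw [← h4, Finset.card_erase_of_mem h1]
    have : 0 < T.card := Finset.card_pos.mpr ⟨v, h1⟩
    omega

/-- the homology of the mapping cone of a family into a skeleton of a simplex -/
lemma hd_cone (k : Type) [Field k] {Q : Finset (Fin (n + 1)) → Prop} {P : Finset (Fin n) → Prop}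
    {W : Finset (Fin n)} {v0 : Fin n} (hv0 : v0 ∈ W) (i : ℕ)
    (h1 : ∀ T, T ⊆ W → T.card ≤ i + 2 → Q (up T)) (h1' : ∀ T, Q (up T) → T ⊆ W)
    (h2 : ∀ T, T.card ≤ i + 1 → (Q (upl T) ↔ P T)) (hP : ∀ T, P T → T ⊆ W) :
    hd k Q (i + 1) = hd k P i := by
  classical
  let C : (Finset (Fin (n + 1)) → k) →ₗ[k] (Finset (Fin n) → k) :=
    { toFun := fun c T => c (upl T)
      map_add' := fun _ _ => rfl
      map_smul' := fun _ _ => rfl }
  have key := finrank_abs (fun _ : Unit => C) {()}
    (Ch k Q (i + 1) ⊓ LinearMap.ker (cdL k (n + 1))) ((Ch k Q (i + 1 + 1)).map (cdL k (n + 1)))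
    (fun _ => Ch k P i ⊓ LinearMap.ker (cdL k n)) (fun _ => (Ch k P (i + 1)).map (cdL k n))
    ?_ ?_ ?_
  · rw [Finset.sum_singleton] at key
    exact key
  · rintro f ⟨hf, hf2⟩ -
    refine ⟨?_, ?_⟩
    · intro T hT
      obtain ⟨h3, h4⟩ := hf (upl T) hT
      rw [card_upl] at h4
      have h5 : T.card = i := by omega
      exact ⟨(h2 T (by omega)).1 h3, h5⟩
    · change cdL k n (C f) = 0
      funext T
      change cd (fun T => f (upl T)) T = 0
      rw [← cd_upl]
      exact congrFun hf2 (upl T)
  · rintro f ⟨hf, hf2⟩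
    have hup : ∀ T, cd (fun T' => f (up T')) T + (-1) ^ T.card * f (upl T) = 0 := by
      intro T
      rw [← cd_up]
      exact congrFun hf2 (up T)
    have hfl : ∀ T, f (upl T) ≠ 0 → P T ∧ T.card = i := by
      intro T hT
      obtain ⟨h3, h4⟩ := hf (upl T) hT
      rw [card_upl] at h4
      have h5 : T.card = i := by omega
      exact ⟨(h2 T (by omega)).1 h3, h5⟩
    constructor
    · rintro ⟨g, hg, rfl⟩ - -
      refine ⟨fun T => g (upl T), ?_, ?_⟩
      · intro T hT
        obtain ⟨h3, h4⟩ := hg (upl T) hT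
        rw [card_upl] at h4
        have h5 : T.card = i + 1 := by omega
        exact ⟨(h2 T (by omega)).1 h3, h5⟩
      · funext T
        change cd (fun T => g (upl T)) T = cd g (upl T)
        rw [cd_upl]
    · intro h
      obtain ⟨d, hd1, hd2⟩ := h () (Finset.mem_singleton_self _)
      have hd2' : ∀ T, cd d T = f (upl T) := fun T => congrFun hd2 T
      let e : Finset (Fin n) → k := fun T => f (up T) - (-1) ^ (i + 1) * d T
      have he1 : ∀ T, e T ≠ 0 → T ⊆ W ∧ T.card = i + 1 := by
        intro T hT
        by_cases h3 : f (up T) ≠ 0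
        · obtain ⟨h4, h5⟩ := hf (up T) h3
          rw [card_up] at h5
          exact ⟨h1' T h4, h5⟩
        · push Not at h3
          have h4 : d T ≠ 0 := by
            intro h5
            apply hT
            simp only [e, h3, h5, mul_zero, sub_zero]
          exact ⟨hP T (hd1 T h4).1, (hd1 T h4).2⟩
      have he2 : ∀ T, cd e T = 0 := by
        intro T
        have h3 : cd e T = cd (fun T' => f (up T')) T - cd (fun T' => (-1) ^ (i + 1) * d T') T :=
          cd_sub _ _ T
        rw [h3, cd_smul, hd2']
        have h4 := hup T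
        by_cases h5 : f (upl T) = 0
        · rw [h5, mul_zero, add_zero] at h4
          rw [h4, h5]; ring
        · have h6 := (hfl T h5).2
          rw [h6] at h4
          rw [pow_succ]
          linear_combination h4
      refine ⟨glue (hv v0 e) d, ?_, ?_⟩
      · intro S hS
        obtain ⟨T, rfl | rfl⟩ := up_or_upl S
        · rw [glue_up] at hS
          obtain ⟨h3, h4⟩ := hv_supp hv0 he1 hS
          rw [card_up]
          exact ⟨h1 T h3 (by omega), by omega⟩
        · rw [glue_upl] at hS
          obtain ⟨h3, h4⟩ := hd1 T hS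
          rw [card_upl]
          exact ⟨(h2 T (by omega)).2 h3, by omega⟩
      · funext S
        rw [cdL_apply]
        obtain ⟨T, rfl | rfl⟩ := up_or_upl S
        · rw [cd_up]
          simp only [glue_up, glue_upl]
          rw [show (fun T' => hv v0 e T') = hv v0 e from rfl, cd_hv v0 e he2]
          simp only [e]
          by_cases h5 : d T = 0
          · rw [h5]; ring
          · rw [(hd1 T h5).2]; ring
        · rw [cd_upl]
          simp only [glue_upl]
          exact hd2' T
  · intro y hy
    obtain ⟨hy1, hy2⟩ := hy () (Finset.mem_singleton_self _)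
    have hy2' : ∀ T, cd (y ()) T = 0 := fun T => congrFun hy2 T
    let a : Finset (Fin n) → k := fun T => -(-1) ^ i * hv v0 (y ()) T
    refine ⟨glue a (y ()), ⟨?_, ?_⟩, ?_⟩
    · intro S hS
      obtain ⟨T, rfl | rfl⟩ := up_or_upl S
      · rw [glue_up] at hS
        have h3 : hv v0 (y ()) T ≠ 0 := fun h => hS (by simp only [a, h, mul_zero])
        obtain ⟨h4, h5⟩ := hv_supp hv0 (fun T hT => ⟨hP T (hy1 T hT).1, (hy1 T hT).2⟩) h3
        rw [card_up]
        exact ⟨h1 T h4 (by omega), by omega⟩
      · rw [glue_upl] at hS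
        obtain ⟨h3, h4⟩ := hy1 T hS
        rw [card_upl]
        exact ⟨(h2 T (by omega)).2 h3, by omega⟩
    · change cdL k (n + 1) _ = 0
      funext S
      rw [cdL_apply, Pi.zero_apply]
      obtain ⟨T, rfl | rfl⟩ := up_or_upl S
      · rw [cd_up]
        simp only [glue_up, glue_upl]
        have h3 : cd (fun T' => a T') T = -(-1) ^ i * y () T := by
          simp only [a]
          rw [cd_smul, cd_hv v0 _ hy2']
        rw [h3]
        by_cases h5 : y () T = 0
        · rw [h5]; ring
        · rw [(hy1 T h5).2]; ring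
      · rw [cd_upl]
        simp only [glue_upl]
        exact hy2' T
    · rintro ⟨⟩ -
      funext T
      change glue a (y ()) (upl T) = _
      rw [glue_upl]

end Pool.Agent.R371.MB
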