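import Pool.Agent.R371.MB.Strand

/-!
The square of the edge ideal of a cone.
-/

set_option autoImplicit false

namespace Pool.Agent.R371.MB

open Finset MvPolynomial

variable {n : ℕ} (G : SimpleGraph (Fin n))

/-- the exponent vectors of degree `j` -/
noncomputable def FD (n j : ℕ) : Finset (Fin n →₀ ℕ) := Finset.finsuppAntidiag univ j

lemma mem_FD {j : ℕ} {b : Fin n →₀ ℕ} : b ∈ FD n j ↔ b.degree = j := by
  rw [FD, Finset.mem_finsuppAntidiag, Finsupp.degree_eq_sum]
  simp

/-- only squarefree multidegrees matter for an edge ideal -/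
lemma hd_EU_eq_zero (k : Type) [Field k] (b : Fin n →₀ ℕ) (hb : ∀ W, b ≠ ind W) (i : ℕ) :
    hd k (Qf (EU G) b) i = 0 := by
  obtain ⟨v, hv⟩ : ∃ v, 2 ≤ b v := by
    by_contra hcon
    push Not at hcon
    apply hb b.support
    ext v
    rw [ind_apply]
    have := hcon v
    by_cases h : v ∈ b.support
    · rw [if_pos h]
      rw [Finsupp.mem_support_iff] at h
      omega
    · rw [if_neg h]
      rwa [Finsupp.notMem_support_iff] at h
  apply hd_eq_zero_of_cone i v _ (Qf_down (fun _ _ => EU_mono G) b)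
  rintro T hvT ⟨h1, a, c, hac, h2⟩
  refine ⟨?_, a, c, hac, ?_⟩
  · rw [ind_insert hvT]
    intro u
    have := h1 u
    rw [Finsupp.add_apply, Finsupp.single_apply]
    split_ifs with hu
    · subst hu
      rw [ind_apply, if_neg hvT]
      omega
    · simpa using this
  · intro u
    have h3 := h2 u
    rw [ind_insert hvT]
    rw [Finsupp.tsub_apply] at h3 ⊢
    rw [Finsupp.add_apply, Finsupp.single_apply]
    split_ifs with hu
    · subst hu
      rw [ind_apply, if_neg hvT] at h3 ⊢
      have h4 : ee a c v ≤ 1 := by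
        rw [ee_apply]
        have := hac.ne
        by_cases h5 : a = v
        · rw [if_pos h5, if_neg (fun h6 => this (h5.trans h6.symm))]
        · rw [if_neg h5]
          split_ifs <;> omega
      omega
    · simpa using h3

/-- field dependence in a squarefree multidegree occurs away from the linear strand and from the
next one -/
lemma exists_low (k k' : Type) [Field k] [Field k'] (W : Finset (Fin n)) (i : ℕ)
    (h : hd k (Qf (EU G) (ind W)) i ≠ hd k' (Qf (EU G) (ind W)) i) :
    ∃ i', i' + 4 ≤ W.card ∧ hd k (Qf (EU G) (ind W)) i' ≠ hd k' (Qf (EU G) (ind W)) i' := by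
  by_contra hcon
  push Not at hcon
  apply h
  have hdown := Qf_down (fun _ _ => EU_mono G) (ind W)
  have htop : ∀ T, Qf (EU G) (ind W) T → T.card + 2 ≤ W.card := by
    intro T hT
    rw [Qf_EU_iff] at hT
    obtain ⟨h1, a, c, hac, h2, h3, h4, h5⟩ := hT
    have h6 : 1 < (W \ T).card := Finset.one_lt_card.2 ⟨a, Finset.mem_sdiff.2 ⟨h2, h4⟩, c,
      Finset.mem_sdiff.2 ⟨h3, h5⟩, hac.ne⟩
    rw [Finset.card_sdiff_of_subset h1] at h6
    omega
  have hrk : ∀ m, rk k (Qf (EU G) (ind W)) m = rk k' (Qf (EU G) (ind W)) m := by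
    intro m
    by_cases h1 : m + 2 ≤ W.card
    · by_cases h2 : m + 2 = W.card
      · have e1 := rk_strand G W k (by omega)
        have e2 := rk_strand G W k' (by omega)
        have e3 : W.card - 2 = m := by omega
        rw [e3] at e1 e2
        rw [e1, e2]
      · have h3 : m + 3 ≤ W.card := by omega
        clear h1 h2
        induction m with
        | zero => rw [rk_zero, rk_zero]
        | succ m ih =>
          have e1 := hd_add k hdown m
          have e2 := hd_add k' hdown m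
          have e3 := ih (by omega)
          have e4 := hcon m (by omega)
          omega
    · rw [rk_eq_zero k _ (fun T hT hc => by have := htop T hT; omega),
        rk_eq_zero k' _ (fun T hT hc => by have := htop T hT; omega)]
  have e1 := hd_add k hdown i
  have e2 := hd_add k' hdown i
  have e3 := hrk i
  have e4 := hrk (i + 1)
  omega

/-- the square of the edge ideal of the cone in multidegree `(W, 2)` -/
lemma hd_coneSq (k : Type) [Field k] (W : Finset (Fin n)) (i : ℕ) (hi : i + 4 ≤ W.card) :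
    hd k (Qf (EU2 (coneGraph G)) (b2 W)) (i + 1) = hd k (Qf (EU G) (ind W)) i := by
  obtain ⟨v0, hv0⟩ : W.Nonempty := Finset.card_pos.1 (by omega)
  apply hd_cone k hv0 i
  · intro T hT hc
    refine ⟨up_le_b2.2 hT, EU2_up G ?_⟩
    rw [Finset.card_sdiff_of_subset hT]
    omega
  · intro T hT
    exact up_le_b2.1 hT.1
  · intro T hc
    rw [Qf_EU_iff]
    unfold Qf
    rw [upl_le_b2]
    refine and_congr_right fun hT => EU2_upl_iff G ?_
    rw [Finset.card_sdiff_of_subset hT]
    omega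
  · intro T hT
    exact ind_le_ind.1 hT.1

theorem bettiDeg_sq_lt (k : Type) [Field k] {m : ℕ} (H : SimpleGraph (Fin m)) (i : ℕ)
    (b : Fin m →₀ ℕ) (h : hd k (Qf (EU2 H) b) i ≠ hd ℚ (Qf (EU2 H) b) i) :
    bettiDeg k (edgeIdeal k H ^ 2) i b.degree ≠ bettiDeg ℚ (edgeIdeal ℚ H ^ 2) i b.degree := by
  rw [bettiDeg_eq_sum (mem_edgeIdeal_sq H k) i b.degree (FD m b.degree) (fun b hb => mem_FD.1 hb)
      (fun b' h1 h2 => absurd (mem_FD.2 h1) h2),
    bettiDeg_eq_sum (mem_edgeIdeal_sq H ℚ) i b.degree (FD m b.degree) (fun b hb => mem_FD.1 hb)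
      (fun b' h1 h2 => absurd (mem_FD.2 h1) h2)]
  have hdown : ∀ b, ∀ T T', T ⊆ T' → Qf (EU2 H) b T' → Qf (EU2 H) b T :=
    fun b => Qf_down (fun _ _ => EU2_mono H) b
  refine (Finset.sum_lt_sum (fun b' _ => hd_rat_le k (hdown b') i) ⟨b, mem_FD.2 rfl, ?_⟩).ne'
  exact lt_of_le_of_ne (hd_rat_le k (hdown b) i) h.symm

theorem main (h : ∃ (k k' : Type) (_ : Field k) (_ : Field k') (i j : ℕ),
      bettiDeg k (edgeIdeal k G) i j ≠ bettiDeg k' (edgeIdeal k' G) i j) :
    ∃ (k k' : Type) (_ : Field k) (_ : Field k') (i j : ℕ),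
      bettiDeg k (edgeIdeal k (coneGraph G) ^ 2) i j ≠
        bettiDeg k' (edgeIdeal k' (coneGraph G) ^ 2) i j := by
  obtain ⟨k, k', _, _, i, j, h⟩ := h
  rw [bettiDeg_eq_sum (mem_edgeIdeal G k) i j (FD n j) (fun b hb => mem_FD.1 hb)
      (fun b' h1 h2 => absurd (mem_FD.2 h1) h2),
    bettiDeg_eq_sum (mem_edgeIdeal G k') i j (FD n j) (fun b hb => mem_FD.1 hb)
      (fun b' h1 h2 => absurd (mem_FD.2 h1) h2)] at h
  obtain ⟨b, hb⟩ : ∃ b, hd k (Qf (EU G) b) i ≠ hd k' (Qf (EU G) b) i := by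
    by_contra hcon
    push Not at hcon
    exact h (Finset.sum_congr rfl fun b _ => hcon b)
  obtain ⟨W, rfl⟩ : ∃ W, b = ind W := by
    by_contra hcon
    push Not at hcon
    apply hb
    rw [hd_EU_eq_zero G k b hcon, hd_EU_eq_zero G k' b hcon]
  obtain ⟨i', hi', hne⟩ := exists_low G k k' W i hb
  rw [← hd_coneSq G k W i' hi', ← hd_coneSq G k' W i' hi'] at hne
  by_cases h1 : hd k (Qf (EU2 (coneGraph G)) (b2 W)) (i' + 1) =
      hd ℚ (Qf (EU2 (coneGraph G)) (b2 W)) (i' + 1)
  · have h2 : hd k' (Qf (EU2 (coneGraph G)) (b2 W)) (i' + 1) ≠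
        hd ℚ (Qf (EU2 (coneGraph G)) (b2 W)) (i' + 1) := fun h2 => hne (h1.trans h2.symm)
    exact ⟨k', ℚ, inferInstance, inferInstance, _, _, bettiDeg_sq_lt k' _ _ _ h2⟩
  · exact ⟨k, ℚ, inferInstance, inferInstance, _, _, bettiDeg_sq_lt k _ _ _ h1⟩

end Pool.Agent.R371.MB
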