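import Mathlib

/-!
Betti numbers of ideals of polynomial rings, as dimensions of Koszul homology.

`S = k[x_0,…,x_{n-1}] = MvPolynomial (Fin n) k`. The Koszul complex `K(x; I)` of the ideal `I` has
in homological degree `i` the chains `∑_{|T| = i} f_T e_T`, `f_T ∈ I`; a chain is written as the
function `T ↦ f_T` on the finite sets of variables. Its `i`-th homology is `Tor_i^S(I, k)`.
-/

set_option autoImplicit false

namespace Pool.Agent.R371.MB

open MvPolynomial

/-- The Koszul differential `e_T ↦ ∑_{j ∈ T} ± x_j e_{T \ j}`, written on coefficient functions. -/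
noncomputable def kD (k : Type*) [CommRing k] (n : ℕ) :
    (Finset (Fin n) → MvPolynomial (Fin n) k) →ₗ[k] (Finset (Fin n) → MvPolynomial (Fin n) k) where
  toFun f T := ∑ j ∈ Tᶜ, (-1) ^ (T.filter (· < j)).card * (X j * f (insert j T))
  map_add' f g := by
    funext T
    simp only [Pi.add_apply, mul_add, Finset.sum_add_distrib]
  map_smul' c f := by
    funext T
    simp only [Pi.smul_apply, RingHom.id_apply, Finset.smul_sum, Algebra.mul_smul_comm]

section

variable {k : Type*} [CommRing k] {n : ℕ}

/-- The Koszul chains of homological degree `i` with coefficients in the ideal `I`. -/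
def chains (I : Ideal (MvPolynomial (Fin n) k)) (i : ℕ) :
    Submodule k (Finset (Fin n) → MvPolynomial (Fin n) k) where
  carrier := {f | ∀ T, f T ∈ I ∧ (T.card ≠ i → f T = 0)}
  zero_mem' := fun T => ⟨by simp, fun _ => rfl⟩
  add_mem' := fun hf hg T => ⟨I.add_mem (hf T).1 (hg T).1, fun h => by
    simp [(hf T).2 h, (hg T).2 h]⟩
  smul_mem' := fun c f hf T => ⟨by
    rw [Pi.smul_apply, MvPolynomial.smul_eq_C_mul]
    exact I.mul_mem_left _ (hf T).1, fun h => by simp [(hf T).2 h]⟩

/-- The chains of homological degree `i` and internal degree `j`: the coefficient of `e_T` is a form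
of degree `j - i`. -/
def chainsDeg (I : Ideal (MvPolynomial (Fin n) k)) (i j : ℕ) :
    Submodule k (Finset (Fin n) → MvPolynomial (Fin n) k) where
  carrier := {f | f ∈ chains I i ∧ ∀ T, ∀ b ∈ (f T).support, b.degree + T.card = j}
  zero_mem' := ⟨Submodule.zero_mem _, fun T b hb => by simp at hb⟩
  add_mem' := by
    classical
    rintro f g ⟨hf, hf'⟩ ⟨hg, hg'⟩
    refine ⟨Submodule.add_mem _ hf hg, fun T b hb => ?_⟩
    rcases Finset.mem_union.1 (MvPolynomial.support_add hb) with h | h
    · exact hf' T b h
    · exact hg' T b h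
  smul_mem' := by
    rintro c f ⟨hf, hf'⟩
    refine ⟨Submodule.smul_mem _ _ hf, fun T b hb => ?_⟩
    exact hf' T b (MvPolynomial.support_smul hb)

end

section

variable {k : Type*} [Field k] {n : ℕ}

/-- `i`-cycles with coefficients in `I` -/
noncomputable def cycles (I : Ideal (MvPolynomial (Fin n) k)) (i : ℕ) :
    Submodule k (Finset (Fin n) → MvPolynomial (Fin n) k) :=
  chains I i ⊓ LinearMap.ker (kD k n)

/-- `i`-boundaries with coefficients in `I` -/
noncomputable def boundaries (I : Ideal (MvPolynomial (Fin n) k)) (i : ℕ) :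
    Submodule k (Finset (Fin n) → MvPolynomial (Fin n) k) :=
  (chains I (i + 1)).map (kD k n)

/-- `i`-cycles of internal degree `j` with coefficients in `I` -/
noncomputable def cyclesDeg (I : Ideal (MvPolynomial (Fin n) k)) (i j : ℕ) :
    Submodule k (Finset (Fin n) → MvPolynomial (Fin n) k) :=
  chainsDeg I i j ⊓ LinearMap.ker (kD k n)

/-- `i`-boundaries of internal degree `j` with coefficients in `I` -/
noncomputable def boundariesDeg (I : Ideal (MvPolynomial (Fin n) k)) (i j : ℕ) :
    Submodule k (Finset (Fin n) → MvPolynomial (Fin n) k) :=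
  (chainsDeg I (i + 1) j).map (kD k n)

variable (k)

/-- The total Betti number `β_i(I) = dim_k Tor_i(I, k)`: the dimension of
`(i-cycles) / (i-boundaries)` of the Koszul complex of `x_0,…,x_{n-1}` with coefficients in `I`. -/
noncomputable def betti (I : Ideal (MvPolynomial (Fin n) k)) (i : ℕ) : ℕ :=
  Module.finrank k (↥(cycles I i) ⧸ (boundaries I i).submoduleOf (cycles I i))

/-- The graded Betti number `β_{i,j}(I) = dim_k Tor_i(I, k)_j`. -/
noncomputable def bettiDeg (I : Ideal (MvPolynomial (Fin n) k)) (i j : ℕ) : ℕ :=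
  Module.finrank k (↥(cyclesDeg I i j) ⧸ (boundariesDeg I i j).submoduleOf (cyclesDeg I i j))

/-- The monomial ideal of `k[x_0,…,x_{n-1}]` with the monomials `x^a`, `a ∈ G`, as generators. -/
noncomputable def monIdeal (G : Finset (Fin n →₀ ℕ)) : Ideal (MvPolynomial (Fin n) k) :=
  Ideal.span ((fun a => monomial a (1 : k)) '' (G : Set (Fin n →₀ ℕ)))

end

end Pool.Agent.R371.MB
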