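import Pool.Agent.R371.MB.Cone

/-!
Edge ideals, cones and the squares of their edge ideals: membership.
-/

set_option autoImplicit false

namespace Pool.Agent.R371.MB

open Finset MvPolynomial

/-- The edge ideal `I(G) = (x_i x_j : ij an edge of G)` of `k[x_0,…,x_{n-1}]`. -/
noncomputable def edgeIdeal (k : Type) [Field k] {n : ℕ} (G : SimpleGraph (Fin n)) :
    Ideal (MvPolynomial (Fin n) k) :=
  Ideal.span {p | ∃ i j, G.Adj i j ∧ p = X i * X j}

/-- The cone over `G`: the last vertex is joined to all vertices of `G`. -/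
def coneGraph {n : ℕ} (G : SimpleGraph (Fin n)) : SimpleGraph (Fin (n + 1)) where
  Adj a b := a ≠ b ∧ (a = Fin.last n ∨ b = Fin.last n ∨
    ∃ i j, a = i.castSucc ∧ b = j.castSucc ∧ G.Adj i j)
  symm := ⟨by
    rintro a b ⟨h, h'⟩
    refine ⟨h.symm, ?_⟩
    rcases h' with h' | h' | ⟨i, j, h1, h2, h3⟩
    · exact Or.inr (Or.inl h')
    · exact Or.inl h'
    · exact Or.inr (Or.inr ⟨j, i, h2, h1, h3.symm⟩)⟩
  loopless := ⟨fun a h => h.1 rfl⟩

section

variable {n : ℕ} (G : SimpleGraph (Fin n))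

/-- exponent vector of `x_i x_j` -/
noncomputable def ee (i j : Fin n) : Fin n →₀ ℕ := Finsupp.single i 1 + Finsupp.single j 1

/-- monomials of the edge ideal -/
def EU (c : Fin n →₀ ℕ) : Prop := ∃ i j, G.Adj i j ∧ ee i j ≤ c

/-- monomials of the square of the edge ideal -/
def EU2 (c : Fin n →₀ ℕ) : Prop :=
  ∃ i j i' j', G.Adj i j ∧ G.Adj i' j' ∧ ee i j + ee i' j' ≤ c

lemma EU_mono {a b : Fin n →₀ ℕ} (hab : a ≤ b) (h : EU G a) : EU G b := by
  obtain ⟨i, j, h1, h2⟩ := h
  exact ⟨i, j, h1, h2.trans hab⟩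

lemma EU2_mono {a b : Fin n →₀ ℕ} (hab : a ≤ b) (h : EU2 G a) : EU2 G b := by
  obtain ⟨i, j, i', j', h1, h2, h3⟩ := h
  exact ⟨i, j, i', j', h1, h2, h3.trans hab⟩

lemma edgeIdeal_eq (k : Type) [Field k] : edgeIdeal k G =
    Ideal.span ((fun a => monomial a (1 : k)) '' {a | ∃ i j, G.Adj i j ∧ a = ee i j}) := by
  unfold edgeIdeal
  congr 1
  ext p
  constructor
  · rintro ⟨i, j, h, rfl⟩
    refine ⟨ee i j, ⟨i, j, h, rfl⟩, ?_⟩
    simp [ee, X, monomial_mul]
  · rintro ⟨_, ⟨i, j, h, rfl⟩, rfl⟩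
    refine ⟨i, j, h, ?_⟩
    simp [ee, X, monomial_mul]

lemma mem_edgeIdeal (k : Type) [Field k] (p : MvPolynomial (Fin n) k) :
    p ∈ edgeIdeal k G ↔ ∀ c ∈ p.support, EU G c := by
  rw [edgeIdeal_eq, mem_ideal_span_monomial_image]
  refine forall₂_congr fun c _ => ?_
  constructor
  · rintro ⟨_, ⟨i, j, h, rfl⟩, h2⟩
    exact ⟨i, j, h, h2⟩
  · rintro ⟨i, j, h, h2⟩
    exact ⟨_, ⟨i, j, h, rfl⟩, h2⟩

lemma mem_edgeIdeal_sq (k : Type) [Field k] (p : MvPolynomial (Fin n) k) :
    p ∈ edgeIdeal k G ^ 2 ↔ ∀ c ∈ p.support, EU2 G c := by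
  have h0 : edgeIdeal k G ^ 2 = Ideal.span ((fun a => monomial a (1 : k)) ''
      {a | ∃ i j i' j', G.Adj i j ∧ G.Adj i' j' ∧ a = ee i j + ee i' j'}) := by
    rw [pow_two, edgeIdeal_eq, Ideal.span_mul_span']
    congr 1
    ext p
    constructor
    · rintro ⟨_, ⟨_, ⟨i, j, h, rfl⟩, rfl⟩, _, ⟨_, ⟨i', j', h', rfl⟩, rfl⟩, rfl⟩
      refine ⟨_, ⟨i, j, i', j', h, h', rfl⟩, ?_⟩
      simp only [monomial_mul, mul_one]
    · rintro ⟨_, ⟨i, j, i', j', h, h', rfl⟩, rfl⟩
      refine ⟨_, ⟨_, ⟨i, j, h, rfl⟩, rfl⟩, _, ⟨_, ⟨i', j', h', rfl⟩, rfl⟩, ?_⟩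
      simp only [monomial_mul, mul_one]
  rw [h0, mem_ideal_span_monomial_image]
  refine forall₂_congr fun c _ => ?_
  constructor
  · rintro ⟨_, ⟨i, j, i', j', h, h', rfl⟩, h2⟩
    exact ⟨i, j, i', j', h, h', h2⟩
  · rintro ⟨i, j, i', j', h, h', h2⟩
    exact ⟨_, ⟨i, j, i', j', h, h', rfl⟩, h2⟩

lemma ee_apply (i j v : Fin n) : ee i j v = (if i = v then 1 else 0) + (if j = v then 1 else 0) := by
  simp [ee, Finsupp.single_apply]

lemma degree_ee (i j : Fin n) : (ee i j).degree = 2 := by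
  simp [ee]

lemma sub_ind_apply (W T : Finset (Fin n)) (v : Fin n) :
    (ind W - ind T) v = if v ∈ W ∧ v ∉ T then 1 else 0 := by
  rw [Finsupp.tsub_apply, ind_apply, ind_apply]
  by_cases h1 : v ∈ W <;> by_cases h2 : v ∈ T <;> simp [h1, h2]

lemma ind_le_ind {T W : Finset (Fin n)} : ind T ≤ ind W ↔ T ⊆ W := by
  constructor
  · intro h v hv
    have := h v
    rw [ind_apply, ind_apply, if_pos hv] at this
    by_contra h2
    rw [if_neg h2] at this
    omega
  · exact ind_mono

/-- the complexes of the edge ideal in squarefree multidegrees -/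
lemma Qf_EU_iff (W T : Finset (Fin n)) :
    Qf (EU G) (ind W) T ↔ T ⊆ W ∧ ∃ i j, G.Adj i j ∧ i ∈ W ∧ j ∈ W ∧ i ∉ T ∧ j ∉ T := by
  unfold Qf
  rw [ind_le_ind]
  refine and_congr_right fun _ => exists_congr fun i => exists_congr fun j => ?_
  refine and_congr_right fun hij => ?_
  constructor
  · intro h
    have h1 := h i
    have h2 := h j
    rw [ee_apply, sub_ind_apply, if_pos rfl] at h1
    rw [ee_apply, sub_ind_apply, if_pos (rfl : j = j)] at h2
    have h3 : i ∈ W ∧ i ∉ T := by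
      by_contra h3
      rw [if_neg h3] at h1
      omega
    have h4 : j ∈ W ∧ j ∉ T := by
      by_contra h4
      rw [if_neg h4] at h2
      omega
    exact ⟨h3.1, h4.1, h3.2, h4.2⟩
  · rintro ⟨h1, h2, h3, h4⟩ v
    rw [ee_apply, sub_ind_apply]
    have hne := hij.ne
    by_cases hiv : i = v
    · subst hiv
      rw [if_pos rfl, if_neg hne.symm, if_pos ⟨h1, h3⟩]
    · rw [if_neg hiv]
      by_cases hjv : j = v
      · subst hjv
        rw [if_pos rfl, if_pos ⟨h2, h4⟩]
      · rw [if_neg hjv]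
        exact Nat.zero_le _

/-- multidegree `(W, 2)` -/
noncomputable def b2 (W : Finset (Fin n)) : Fin (n + 1) →₀ ℕ :=
  Finsupp.equivFunOnFinite.symm (Fin.lastCases 2 (fun v => if v ∈ W then 1 else 0))

lemma b2_last (W : Finset (Fin n)) : b2 W (Fin.last n) = 2 := by
  simp [b2]

lemma b2_castSucc (W : Finset (Fin n)) (v : Fin n) : b2 W v.castSucc = if v ∈ W then 1 else 0 := by
  simp [b2]

lemma up_le_b2 {W T : Finset (Fin n)} : ind (up T) ≤ b2 W ↔ T ⊆ W := by
  constructor
  · intro h v hv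
    have := h v.castSucc
    rw [ind_apply, if_pos (castSucc_mem_up.2 hv), b2_castSucc] at this
    by_contra h2
    rw [if_neg h2] at this
    omega
  · intro h v
    refine Fin.lastCases ?_ (fun v => ?_) v
    · rw [ind_apply, if_neg last_notMem_up]; exact Nat.zero_le _
    · rw [ind_apply, b2_castSucc]
      by_cases hv : v ∈ T
      · rw [if_pos (castSucc_mem_up.2 hv), if_pos (h hv)]
      · rw [if_neg (fun h' => hv (castSucc_mem_up.1 h'))]; exact Nat.zero_le _

lemma upl_le_b2 {W T : Finset (Fin n)} : ind (upl T) ≤ b2 W ↔ T ⊆ W := by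
  constructor
  · intro h v hv
    have := h v.castSucc
    rw [ind_apply, if_pos (castSucc_mem_upl.2 hv), b2_castSucc] at this
    by_contra h2
    rw [if_neg h2] at this
    omega
  · intro h v
    refine Fin.lastCases ?_ (fun v => ?_) v
    · rw [ind_apply, if_pos last_mem_upl, b2_last]; omega
    · rw [ind_apply, b2_castSucc]
      by_cases hv : v ∈ T
      · rw [if_pos (castSucc_mem_upl.2 hv), if_pos (h hv)]
      · rw [if_neg (fun h' => hv (castSucc_mem_upl.1 h'))]; exact Nat.zero_le _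

lemma b2_sub_up_castSucc (W T : Finset (Fin n)) (v : Fin n) :
    (b2 W - ind (up T)) v.castSucc = if v ∈ W \ T then 1 else 0 := by
  rw [Finsupp.tsub_apply, b2_castSucc, ind_apply]
  by_cases h1 : v ∈ W <;> by_cases h2 : v ∈ T <;> simp [h1, h2, castSucc_mem_up]

lemma b2_sub_upl_castSucc (W T : Finset (Fin n)) (v : Fin n) :
    (b2 W - ind (upl T)) v.castSucc = if v ∈ W \ T then 1 else 0 := by
  rw [Finsupp.tsub_apply, b2_castSucc, ind_apply]
  by_cases h1 : v ∈ W <;> by_cases h2 : v ∈ T <;> simp [h1, h2, castSucc_mem_upl]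

lemma b2_sub_up_last (W T : Finset (Fin n)) : (b2 W - ind (up T)) (Fin.last n) = 2 := by
  rw [Finsupp.tsub_apply, b2_last, ind_apply, if_neg last_notMem_up]

lemma b2_sub_upl_last (W T : Finset (Fin n)) : (b2 W - ind (upl T)) (Fin.last n) = 1 := by
  rw [Finsupp.tsub_apply, b2_last, ind_apply, if_pos last_mem_upl]

/-- enough room without the last variable -/
lemma EU2_up {W T : Finset (Fin n)} (h : 2 ≤ (W \ T).card) :
    EU2 (coneGraph G) (b2 W - ind (up T)) := by
  obtain ⟨u, hu, v, hv, huv⟩ := Finset.one_lt_card.1 (show 1 < (W \ T).card by omega)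
  refine ⟨u.castSucc, Fin.last n, v.castSucc, Fin.last n,
    ⟨Fin.castSucc_ne_last u, Or.inr (Or.inl rfl)⟩, ⟨Fin.castSucc_ne_last v, Or.inr (Or.inl rfl)⟩, ?_⟩
  intro w
  rw [Finsupp.add_apply, ee_apply, ee_apply]
  refine Fin.lastCases ?_ (fun w => ?_) w
  · rw [b2_sub_up_last, if_neg (Fin.castSucc_ne_last u), if_neg (Fin.castSucc_ne_last v), if_pos rfl]
  · rw [b2_sub_up_castSucc, if_neg (Fin.castSucc_ne_last w).symm]
    simp only [Fin.castSucc_inj, add_zero]
    by_cases h1 : u = w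
    · subst h1
      rw [if_pos rfl, if_neg huv.symm, if_pos hu]
    · rw [if_neg h1]
      by_cases h2 : v = w
      · subst h2
        rw [if_pos rfl, if_pos hv]
      · rw [if_neg h2]; exact Nat.zero_le _

lemma EU2_upl_iff {W T : Finset (Fin n)} (h : 3 ≤ (W \ T).card) :
    EU2 (coneGraph G) (b2 W - ind (upl T)) ↔ ∃ i j, G.Adj i j ∧ i ∈ W ∧ j ∈ W ∧ i ∉ T ∧ j ∉ T := by
  constructor
  · rintro ⟨i, j, i', j', h1, h2, h3⟩
    -- an edge of `G` with both ends in `W \ T`
    have key : ∀ a b a' b' : Fin (n + 1), (coneGraph G).Adj a b →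
        ee a b + ee a' b' ≤ b2 W - ind (upl T) → a ≠ Fin.last n → b ≠ Fin.last n →
        ∃ i j, G.Adj i j ∧ i ∈ W ∧ j ∈ W ∧ i ∉ T ∧ j ∉ T := by
      intro a b a' b' hab hle ha hb
      rcases hab.2 with h' | h' | ⟨u, v, rfl, rfl, huv⟩
      · exact absurd h' ha
      · exact absurd h' hb
      · have e1 := hle u.castSucc
        have e2 := hle v.castSucc
        rw [Finsupp.add_apply, ee_apply, b2_sub_upl_castSucc, if_pos rfl] at e1
        rw [Finsupp.add_apply, ee_apply, b2_sub_upl_castSucc, if_pos (rfl : v.castSucc = v.castSucc)]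
          at e2
        have e3 : u ∈ W \ T := by
          by_contra h3
          rw [if_neg h3] at e1
          omega
        have e4 : v ∈ W \ T := by
          by_contra h4
          rw [if_neg h4] at e2
          omega
        rw [Finset.mem_sdiff] at e3 e4
        exact ⟨u, v, huv, e3.1, e4.1, e3.2, e4.2⟩
    have hl := h3 (Fin.last n)
    rw [Finsupp.add_apply, ee_apply, ee_apply, b2_sub_upl_last] at hl
    by_cases hi : i = Fin.last n
    · rw [if_pos hi] at hl
      have hi' : i' ≠ Fin.last n := by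
        intro h'
        rw [if_pos h'] at hl
        omega
      have hj' : j' ≠ Fin.last n := by
        intro h'
        rw [if_pos h'] at hl
        omega
      exact key i' j' i j h2 (by rwa [add_comm (ee i j) (ee i' j')] at h3) hi' hj'
    · by_cases hj : j = Fin.last n
      · rw [if_pos hj] at hl
        have hi' : i' ≠ Fin.last n := by
          intro h'
          rw [if_pos h'] at hl
          omega
        have hj' : j' ≠ Fin.last n := by
          intro h'
          rw [if_pos h'] at hl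
          omega
        exact key i' j' i j h2 (by rwa [add_comm (ee i j) (ee i' j')] at h3) hi' hj'
      · exact key i j i' j' h1 h3 hi hj
  · rintro ⟨u, v, huv, hu1, hv1, hu2, hv2⟩
    obtain ⟨w, hw, hw2⟩ : ∃ w ∈ W \ T, w ∉ ({u, v} : Finset (Fin n)) := by
      apply Finset.exists_mem_notMem_of_card_lt_card
      have := Finset.card_le_two (a := u) (b := v)
      omega
    simp only [Finset.mem_insert, Finset.mem_singleton, not_or] at hw2
    have hne := huv.ne
    refine ⟨u.castSucc, v.castSucc, w.castSucc, Fin.last n,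
      ⟨by rw [Ne, Fin.castSucc_inj]; exact hne, Or.inr (Or.inr ⟨u, v, rfl, rfl, huv⟩)⟩,
      ⟨Fin.castSucc_ne_last w, Or.inr (Or.inl rfl)⟩, ?_⟩
    intro x
    rw [Finsupp.add_apply, ee_apply, ee_apply]
    refine Fin.lastCases ?_ (fun x => ?_) x
    · rw [b2_sub_upl_last, if_neg (Fin.castSucc_ne_last u), if_neg (Fin.castSucc_ne_last v),
        if_neg (Fin.castSucc_ne_last w), if_pos rfl]
    · rw [b2_sub_upl_castSucc, if_neg (Fin.castSucc_ne_last x).symm]
      simp only [Fin.castSucc_inj, add_zero]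
      by_cases h1 : u = x
      · subst h1
        rw [if_pos rfl, if_neg hne.symm, if_neg hw2.1, if_pos (Finset.mem_sdiff.2 ⟨hu1, hu2⟩)]
      · rw [if_neg h1]
        by_cases h2 : v = x
        · subst h2
          rw [if_pos rfl, if_neg hw2.2, if_pos (Finset.mem_sdiff.2 ⟨hv1, hv2⟩)]
        · rw [if_neg h2]
          by_cases h3 : w = x
          · subst h3
            rw [if_pos rfl, if_pos hw]
          · rw [if_neg h3]; exact Nat.zero_le _

end

end Pool.Agent.R371.MB
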