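import Pool.Agent.R371.MB.Rank

/-!
Powers of monomial ideals: membership and total Betti numbers.
-/

set_option autoImplicit false

namespace Pool.Agent.R371.MB

open Finset MvPolynomial
open scoped Pointwise

variable {n : ℕ} {Γ : Type} [Fintype Γ]

/-- monomials of the `h`-th power of the ideal of the `x^{α γ}` -/
def PU (α : Γ → Fin n →₀ ℕ) (h : ℕ) (c : Fin n →₀ ℕ) : Prop :=
  ∃ w : Γ → ℕ, ∑ γ, w γ = h ∧ ∑ γ, w γ • α γ ≤ c

lemma PU_mono (α : Γ → Fin n →₀ ℕ) (h : ℕ) {a b : Fin n →₀ ℕ} (hab : a ≤ b) (ha : PU α h a) :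
    PU α h b := by
  obtain ⟨w, hw, hw2⟩ := ha
  exact ⟨w, hw, hw2.trans hab⟩

lemma sum_single_smul [DecidableEq Γ] (α : Γ → Fin n →₀ ℕ) (γ : Γ) :
    ∑ γ', (Pi.single γ 1 : Γ → ℕ) γ' • α γ' = α γ := by
  rw [Finset.sum_eq_single γ]
  · simp
  · intro b _ hb
    simp [Pi.single_eq_of_ne hb]
  · intro h'; exact absurd (mem_univ _) h'

lemma sum_add_single_smul [DecidableEq Γ] (α : Γ → Fin n →₀ ℕ) (w : Γ → ℕ) (γ : Γ) :
    ∑ γ', (w + Pi.single γ 1 : Γ → ℕ) γ' • α γ' = ∑ γ', w γ' • α γ' + α γ := by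
  simp only [Pi.add_apply, add_smul, Finset.sum_add_distrib]
  rw [sum_single_smul]

lemma sum_add_single [DecidableEq Γ] (w : Γ → ℕ) (γ : Γ) :
    ∑ γ', (w + Pi.single γ 1 : Γ → ℕ) γ' = ∑ γ', w γ' + 1 := by
  simp only [Pi.add_apply, Finset.sum_add_distrib]
  rw [Finset.sum_pi_single']
  simp

lemma span_pow_eq (k : Type*) [CommRing k] (α : Γ → Fin n →₀ ℕ) (h : ℕ) :
    (Ideal.span ((fun a => monomial a (1 : k)) '' Set.range α)) ^ h =
      Ideal.span ((fun a => monomial a (1 : k)) ''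
        {a | ∃ w : Γ → ℕ, ∑ γ, w γ = h ∧ a = ∑ γ, w γ • α γ}) := by
  classical
  induction h with
  | zero =>
    rw [pow_zero, Ideal.one_eq_top]
    symm
    rw [Ideal.eq_top_iff_one]
    refine Ideal.subset_span ⟨0, ⟨0, by simp, by simp⟩, ?_⟩
    simp
  | succ h ih =>
    rw [pow_succ, ih, Ideal.span_mul_span']
    congr 1
    ext p
    constructor
    · rintro ⟨_, ⟨a, ⟨w, hw, rfl⟩, rfl⟩, _, ⟨_, ⟨γ, rfl⟩, rfl⟩, rfl⟩
      refine ⟨_, ⟨w + Pi.single γ 1, ?_, rfl⟩, ?_⟩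
      · rw [sum_add_single, hw]
      · rw [sum_add_single_smul]
        simp only [monomial_mul, mul_one]
    · rintro ⟨_, ⟨w, hw, rfl⟩, rfl⟩
      obtain ⟨γ, hγ⟩ : ∃ γ, 0 < w γ := by
        by_contra hcon
        push Not at hcon
        have : ∑ γ, w γ = 0 := Finset.sum_eq_zero fun γ _ => Nat.le_zero.1 (hcon γ)
        omega
      obtain ⟨w', rfl⟩ : ∃ w' : Γ → ℕ, w = w' + Pi.single γ 1 := by
        refine ⟨w - Pi.single γ 1, ?_⟩
        funext γ'
        by_cases h' : γ' = γ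
        · subst h'
          simp
          omega
        · simp [Pi.single_eq_of_ne h']
      refine ⟨monomial (∑ γ', w' γ' • α γ') 1, ⟨_, ⟨w', ?_, rfl⟩, rfl⟩,
        monomial (α γ) 1, ⟨_, ⟨γ, rfl⟩, rfl⟩, ?_⟩
      · rw [sum_add_single] at hw
        omega
      · rw [sum_add_single_smul]
        simp only [monomial_mul, mul_one]

/-- membership in powers of a monomial ideal -/
lemma mem_span_pow (k : Type*) [CommRing k] (α : Γ → Fin n →₀ ℕ) (h : ℕ)
    (p : MvPolynomial (Fin n) k) :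
    p ∈ (Ideal.span ((fun a => monomial a (1 : k)) '' Set.range α)) ^ h ↔
      ∀ c ∈ p.support, PU α h c := by
  rw [span_pow_eq, mem_ideal_span_monomial_image]
  refine forall₂_congr fun c _ => ?_
  constructor
  · rintro ⟨a, ⟨w, hw, rfl⟩, hle⟩
    exact ⟨w, hw, hle⟩
  · rintro ⟨w, hw, hle⟩
    exact ⟨_, ⟨w, hw, rfl⟩, hle⟩

lemma Qf_down {U : (Fin n →₀ ℕ) → Prop} (hU : ∀ a b, a ≤ b → U a → U b) (b : Fin n →₀ ℕ)
    (T T' : Finset (Fin n)) (hTT : T ⊆ T') (h : Qf U b T') : Qf U b T := by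
  refine ⟨(ind_mono hTT).trans h.1, hU _ _ ?_ h.2⟩
  exact tsub_le_tsub_left (ind_mono hTT) b

/-- a bound for the exponents of the `h`-th power -/
noncomputable def bd (α : Γ → Fin n →₀ ℕ) (h : ℕ) : Fin n →₀ ℕ := h • ∑ γ, α γ

lemma Qf_PU_bounded (α : Γ → Fin n →₀ ℕ) (h : ℕ) {b : Fin n →₀ ℕ} {T : Finset (Fin n)}
    (hQ : Qf (PU α h) b T) {v : Fin n} (hv : bd α h v < b v) (hvT : v ∉ T) :
    Qf (PU α h) b (insert v T) := by
  obtain ⟨h1, w, hw, hw2⟩ := hQ
  have hwb : (∑ γ, w γ • α γ) v ≤ bd α h v := by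
    simp only [bd, Finsupp.smul_apply, Finsupp.finsetSum_apply, smul_eq_mul, Finset.mul_sum]
    refine Finset.sum_le_sum fun γ _ => Nat.mul_le_mul_right _ ?_
    rw [← hw]
    exact Finset.single_le_sum (fun _ _ => Nat.zero_le _) (mem_univ γ)
  refine ⟨?_, w, hw, ?_⟩
  · rw [ind_insert hvT]
    intro u
    have := h1 u
    rw [Finsupp.add_apply, Finsupp.single_apply]
    split_ifs with hu
    · subst hu
      rw [ind_apply, if_neg hvT] at *
      omega
    · simpa using this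
  · intro u
    have h3 := hw2 u
    rw [ind_insert hvT]
    rw [Finsupp.tsub_apply] at h3 ⊢
    rw [Finsupp.add_apply, Finsupp.single_apply]
    split_ifs with hu
    · subst hu
      rw [ind_apply, if_neg hvT]
      omega
    · simpa using h3

lemma hd_PU_eq_zero (k : Type) [Field k] (α : Γ → Fin n →₀ ℕ) (h : ℕ) {b : Fin n →₀ ℕ}
    (hb : ¬ b ≤ bd α h) (i : ℕ) : hd k (Qf (PU α h) b) i = 0 := by
  rw [Finsupp.le_def] at hb
  push Not at hb
  obtain ⟨v, hv⟩ := hb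
  exact hd_eq_zero_of_cone i v (fun T hT hQ => Qf_PU_bounded α h hQ hv hT)
    (Qf_down (fun _ _ => PU_mono α h) b)

/-- total Betti numbers of powers -/
theorem betti_pow (k : Type) [Field k] (α : Γ → Fin n →₀ ℕ) (h i : ℕ) :
    betti k ((Ideal.span ((fun a => monomial a (1 : k)) '' Set.range α)) ^ h) i =
      ∑ b ∈ Finset.Iic (bd α h), hd k (Qf (PU α h) b) i := by
  apply betti_eq_sum (mem_span_pow k α h)
  intro b hb
  apply hd_PU_eq_zero
  simpa using hb

/-- Betti numbers of a power are field independent if all multigraded pieces are -/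
theorem betti_eq_of_hd (k : Type) [Field k] (α : Γ → Fin n →₀ ℕ) (h i : ℕ)
    (H : ∀ b, hd k (Qf (PU α h) b) i = hd ℚ (Qf (PU α h) b) i) :
    betti k ((Ideal.span ((fun a => monomial a (1 : k)) '' Set.range α)) ^ h) i =
      betti ℚ ((Ideal.span ((fun a => monomial a (1 : ℚ)) '' Set.range α)) ^ h) i := by
  rw [betti_pow, betti_pow]
  exact Finset.sum_congr rfl fun b _ => H b

theorem betti_lt_of_hd (k : Type) [Field k] (α : Γ → Fin n →₀ ℕ) (h i : ℕ) (b : Fin n →₀ ℕ)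
    (H : hd ℚ (Qf (PU α h) b) i < hd k (Qf (PU α h) b) i) :
    betti ℚ ((Ideal.span ((fun a => monomial a (1 : ℚ)) '' Set.range α)) ^ h) i <
      betti k ((Ideal.span ((fun a => monomial a (1 : k)) '' Set.range α)) ^ h) i := by
  rw [betti_pow, betti_pow]
  have hb : b ≤ bd α h := by
    by_contra hb
    rw [hd_PU_eq_zero k α h hb] at H
    omega
  refine Finset.sum_lt_sum (fun b _ => hd_rat_le k (Qf_down (fun _ _ => PU_mono α h) b) i)
    ⟨b, by simpa using hb, H⟩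

end Pool.Agent.R371.MB
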