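import Pool.Agent.R371.MB.Basic

/-!
Ranks of the combinatorial differentials over different fields.
-/

set_option autoImplicit false

namespace Pool.Agent.R371.MB

open Finset
open Pool.Agent.H677R3.EdgeReg (sg cd cd_cd cd_zero cd_add cd_sub cd_smul)

section int

variable {ι κ : Type} [Fintype ι] [Fintype κ]

/-- an integral family which is independent over some field is independent over `ℤ` -/
lemma linearIndependent_int_of_field {ι κ : Type*} [Fintype ι] (k : Type*) [Field k] (v : ι → κ → ℤ)
    (h : LinearIndependent k (fun i x => ((v i x : ℤ) : k))) : LinearIndependent ℤ v := by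
  classical
  by_contra hn
  rw [Fintype.not_linearIndependent_iff] at hn
  obtain ⟨g, hg, i0, hi0⟩ := hn
  obtain ⟨g', hg', hgcd⟩ := Finset.extract_gcd g (s := univ) ⟨i0, mem_univ _⟩
  set d := univ.gcd g with hd
  have hd0 : d ≠ 0 := by
    intro h0
    apply hi0
    rw [hg' i0 (mem_univ _), h0, zero_mul]
  have h1 : ∑ i, g' i • v i = 0 := by
    have : d • ∑ i, g' i • v i = 0 := by
      rw [← hg, Finset.smul_sum]
      refine Finset.sum_congr rfl fun i _ => ?_
      rw [hg' i (mem_univ _), smul_smul]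
    exact (smul_eq_zero.1 this).resolve_left hd0
  have h2 : ∀ i, ((g' i : ℤ) : k) = 0 := by
    rw [Fintype.linearIndependent_iff] at h
    apply h
    funext x
    have := congrFun h1 x
    simp only [Finset.sum_apply, Pi.smul_apply, smul_eq_mul, Pi.zero_apply] at this ⊢
    exact_mod_cast congrArg (Int.cast : ℤ → k) this
  have h3 : ((ringChar k : ℕ) : ℤ) ∣ 1 := by
    rw [← hgcd]
    refine Finset.dvd_gcd fun i _ => ?_
    rw [← CharP.intCast_eq_zero_iff k (ringChar k)]
    exact h2 i
  have h4 : ringChar k = 1 := by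
    have := Int.natAbs_dvd_natAbs.2 h3
    simpa using this
  exact CharP.ringChar_ne_one h4

lemma linearIndependent_rat {ι κ : Type*} (v : ι → κ → ℤ) (h : LinearIndependent ℤ v) :
    LinearIndependent ℚ (fun i x => ((v i x : ℤ) : ℚ)) := by
  rw [← LinearIndependent.iff_fractionRing ℤ ℚ]
  let f : (κ → ℤ) →ₗ[ℤ] (κ → ℚ) :=
    { toFun := fun w x => (w x : ℚ)
      map_add' := fun a b => by funext x; simp
      map_smul' := fun r a => by funext x; simp }
  have hf : LinearMap.ker f = ⊥ := by
    rw [LinearMap.ker_eq_bot]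
    intro a b hab
    funext x
    have : ((a x : ℤ) : ℚ) = ((b x : ℤ) : ℚ) := congrFun hab x
    exact_mod_cast this
  exact h.map' f hf

lemma finrank_span_le (k : Type) [Field k] (v : ι → κ → ℤ) :
    Module.finrank k (Submodule.span k (Set.range fun i x => ((v i x : ℤ) : k))) ≤
      Module.finrank ℚ (Submodule.span ℚ (Set.range fun i x => ((v i x : ℤ) : ℚ))) := by
  classical
  obtain ⟨κ', a, ha, hsp, hli⟩ := exists_linearIndependent' k (fun (i : ι) (x : κ) => ((v i x : ℤ) : k))
  have : Fintype κ' := Fintype.ofInjective a ha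
  have h1 : LinearIndependent ℤ (v ∘ a) := linearIndependent_int_of_field k (v ∘ a) hli
  have h2 := linearIndependent_rat (v ∘ a) h1
  rw [← hsp, finrank_span_eq_card hli, ← finrank_span_eq_card h2]
  apply Submodule.finrank_mono
  apply Submodule.span_mono
  rintro _ ⟨i, rfl⟩
  exact ⟨a i, rfl⟩

end int

section

variable {n : ℕ}

/-- rank of the differential on the chains of size `i` -/
noncomputable def rk (k : Type*) [Field k] (Q : Finset (Fin n) → Prop) (i : ℕ) : ℕ :=
  Module.finrank k ((Ch k Q i).map (cdL k n))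

/-- number of sets of size `i` -/
noncomputable def nb (Q : Finset (Fin n) → Prop) (i : ℕ) : ℕ :=
  open Classical in (Finset.univ.filter fun T => Q T ∧ T.card = i).card

lemma cast_cd (k : Type*) [CommRing k] (a : Finset (Fin n) → ℤ) (T : Finset (Fin n)) :
    cd (fun T => ((a T : ℤ) : k)) T = ((cd a T : ℤ) : k) := by
  unfold cd sg
  push_cast
  rfl

lemma Ch_eq_span (k : Type*) [CommRing k] (Q : Finset (Fin n) → Prop) (i : ℕ) :
    Ch k Q i = Submodule.span k
      (Set.range fun T : {T : Finset (Fin n) // Q T ∧ T.card = i} => (Pi.single T.1 (1 : k))) := by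
  classical
  apply le_antisymm
  · intro c hc
    have : c = ∑ T, c T • (Pi.single T (1 : k) : Finset (Fin n) → k) := by
      funext T'
      simp [Finset.sum_apply, Pi.single_apply]
    rw [this]
    refine Submodule.sum_mem _ fun T _ => ?_
    by_cases h : c T = 0
    · rw [h, zero_smul]; exact Submodule.zero_mem _
    · exact Submodule.smul_mem _ _ (Submodule.subset_span ⟨⟨T, hc T h⟩, rfl⟩)
  · rw [Submodule.span_le]
    rintro _ ⟨T, rfl⟩ T' h
    have : T' = T.1 := by
      by_contra h'
      exact h (Pi.single_eq_of_ne h' _)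
    rw [this]
    exact T.2

lemma finrank_Ch (k : Type) [Field k] (Q : Finset (Fin n) → Prop) (i : ℕ) :
    Module.finrank k (Ch k Q i) = nb Q i := by
  classical
  have h1 := (Pi.basisFun k (Finset (Fin n))).linearIndependent
  have h2 := h1.comp (fun T : {T : Finset (Fin n) // Q T ∧ T.card = i} => T.1)
    Subtype.val_injective
  have h3 : (⇑(Pi.basisFun k (Finset (Fin n))) ∘
      fun T : {T : Finset (Fin n) // Q T ∧ T.card = i} => T.1) =
      fun T => (Pi.single T.1 (1 : k) : Finset (Fin n) → k) := by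
    funext T
    simp
  rw [h3] at h2
  rw [Ch_eq_span, finrank_span_eq_card h2, nb, Fintype.card_subtype]

lemma map_Ch_eq_span (k : Type*) [CommRing k] (Q : Finset (Fin n) → Prop) (i : ℕ) :
    (Ch k Q i).map (cdL k n) = Submodule.span k
      (Set.range fun (T : {T : Finset (Fin n) // Q T ∧ T.card = i}) (x : Finset (Fin n)) =>
        ((cd (Pi.single T.1 (1 : ℤ)) x : ℤ) : k)) := by
  classical
  rw [Ch_eq_span, Submodule.map_span, ← Set.range_comp]
  congr 2
  funext T x
  simp only [Function.comp, cdL_apply]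
  rw [← cast_cd]
  congr 1
  funext T'
  by_cases h : T' = T.1
  · subst h; simp
  · simp [Pi.single_eq_of_ne h]

/-- semicontinuity of ranks -/
lemma rk_le (k : Type) [Field k] (Q : Finset (Fin n) → Prop) (i : ℕ) : rk k Q i ≤ rk ℚ Q i := by
  classical
  unfold rk
  rw [map_Ch_eq_span, map_Ch_eq_span]
  exact finrank_span_le k _

variable {Q : Finset (Fin n) → Prop}

lemma map_Ch_le {k : Type*} [CommRing k] (hQ : ∀ T T', T ⊆ T' → Q T' → Q T) (i : ℕ) :
    (Ch k Q (i + 1)).map (cdL k n) ≤ Ch k Q i ⊓ LinearMap.ker (cdL k n) := by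
  rintro _ ⟨c, hc, rfl⟩
  refine ⟨?_, ?_⟩
  · intro T hT
    change cd c T ≠ 0 at hT
    unfold cd at hT
    obtain ⟨j, hj, hj2⟩ := Finset.exists_ne_zero_of_sum_ne_zero hT
    have h3 : c (insert j T) ≠ 0 := fun h => hj2 (by rw [h, mul_zero])
    obtain ⟨h4, h5⟩ := hc _ h3
    have hjT : j ∉ T := by simpa using hj
    rw [Finset.card_insert_of_notMem hjT] at h5
    exact ⟨hQ _ _ (Finset.subset_insert _ _) h4, by omega⟩
  · change cdL k n (cdL k n c) = 0
    funext T
    exact cd_cd c T

lemma hd_add (k : Type) [Field k] (hQ : ∀ T T', T ⊆ T' → Q T' → Q T) (i : ℕ) :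
    hd k Q i + rk k Q i + rk k Q (i + 1) = nb Q i := by
  have h1 := Submodule.finrank_quotient_add_finrank
    (((Ch k Q (i + 1)).map (cdL k n)).submoduleOf (Ch k Q i ⊓ LinearMap.ker (cdL k n)))
  have h2 := (Submodule.submoduleOfEquivOfLe (map_Ch_le (k := k) hQ i)).finrank_eq
  have h3 := LinearMap.finrank_range_add_finrank_ker ((cdL k n).domRestrict (Ch k Q i))
  rw [LinearMap.range_domRestrict] at h3
  have h4 : Module.finrank k (LinearMap.ker ((cdL k n).domRestrict (Ch k Q i))) =
      Module.finrank k ↥(Ch k Q i ⊓ LinearMap.ker (cdL k n)) := by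
    rw [LinearMap.ker_domRestrict, ← Submodule.map_comap_subtype]
    exact (Submodule.equivSubtypeMap _ _).finrank_eq
  rw [finrank_Ch] at h3
  unfold hd rk
  omega

lemma rk_zero (k : Type) [Field k] (Q : Finset (Fin n) → Prop) : rk k Q 0 = 0 := by
  have : (Ch k Q 0).map (cdL k n) = ⊥ := by
    rw [eq_bot_iff]
    rintro _ ⟨c, hc, rfl⟩
    rw [Submodule.mem_bot]
    funext T
    change cd c T = 0
    unfold cd
    refine Finset.sum_eq_zero fun j hj => ?_
    have : c (insert j T) = 0 := by
      by_contra h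
      have := (hc _ h).2
      rw [Finset.card_eq_zero] at this
      exact Finset.insert_ne_empty _ _ this
    rw [this, mul_zero]
  unfold rk
  rw [this, finrank_bot]

lemma Ch_eq_bot (k : Type*) [Field k] (Q : Finset (Fin n) → Prop) {i : ℕ}
    (hi : ∀ T, Q T → T.card = i → False) : Ch k Q i = ⊥ := by
  rw [eq_bot_iff]
  intro c hc
  rw [Submodule.mem_bot]
  funext T
  by_contra h
  exact hi T (hc T h).1 (hc T h).2

lemma rk_eq_zero (k : Type) [Field k] (Q : Finset (Fin n) → Prop) {i : ℕ} 
    (hi : ∀ T, Q T → T.card = i → False) : rk k Q i = 0 := by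
  unfold rk
  rw [Ch_eq_bot k Q hi, Submodule.map_bot, finrank_bot]

lemma hd_eq_zero_of_empty (k : Type) [Field k] {Q : Finset (Fin n) → Prop} {i : ℕ} 
    (hQ : ∀ T T', T ⊆ T' → Q T' → Q T) (hi : ∀ T, Q T → T.card = i → False) : hd k Q i = 0 := by
  have h1 := hd_add k hQ i
  have h2 : nb Q i = 0 := by
    classical
    unfold nb
    rw [Finset.card_eq_zero, Finset.filter_eq_empty_iff]
    intro T _ h
    exact hi T h.1 h.2
  omega

/-- semicontinuity of the homology -/
lemma hd_rat_le (k : Type) [Field k] (hQ : ∀ T T', T ⊆ T' → Q T' → Q T) (i : ℕ) :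
    hd ℚ Q i ≤ hd k Q i := by
  have h1 := hd_add k hQ i
  have h2 := hd_add ℚ hQ i
  have h3 := rk_le k Q i
  have h4 := rk_le k Q (i + 1)
  omega

lemma hd_eq_of_rk (k : Type) [Field k] (hQ : ∀ T T', T ⊆ T' → Q T' → Q T) (i : ℕ)
    (h : rk k Q i = rk ℚ Q i) (h' : rk k Q (i + 1) = rk ℚ Q (i + 1)) : hd k Q i = hd ℚ Q i := by
  have h1 := hd_add k hQ i
  have h2 := hd_add ℚ hQ i
  omega

lemma card_le_of_fin (T : Finset (Fin n)) : T.card ≤ n := by
  simpa using Finset.card_le_univ T

/-- homology concentrated in one size does not depend on the field -/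
lemma hd_eq_of_conc (k : Type) [Field k] (hQ : ∀ T T', T ⊆ T' → Q T' → Q T) (i0 : ℕ)
    (h1 : ∀ i, i ≠ i0 → hd k Q i = 0) (h2 : ∀ i, i ≠ i0 → hd ℚ Q i = 0) (i : ℕ) :
    hd k Q i = hd ℚ Q i := by
  have hlow : ∀ i, i ≤ i0 → rk k Q i = rk ℚ Q i := by
    intro i
    induction i with
    | zero => intro _; rw [rk_zero, rk_zero]
    | succ i ih =>
      intro hi
      have e1 := hd_add k hQ i
      have e2 := hd_add ℚ hQ i
      rw [h1 i (by omega)] at e1
      rw [h2 i (by omega)] at e2
      have := ih (by omega)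
      omega
  have hhigh : ∀ m i, i + m = n + 1 → i0 < i → rk k Q i = rk ℚ Q i := by
    intro m
    induction m with
    | zero =>
      intro i hi _
      rw [rk_eq_zero k Q (fun T _ h => by have := card_le_of_fin T; omega),
        rk_eq_zero ℚ Q (fun T _ h => by have := card_le_of_fin T; omega)]
    | succ m ih =>
      intro i hi hi0
      have e1 := hd_add k hQ i
      have e2 := hd_add ℚ hQ i
      rw [h1 i (by omega)] at e1
      rw [h2 i (by omega)] at e2
      have := ih (i + 1) (by omega) (by omega)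
      omega
  have hall : ∀ i, rk k Q i = rk ℚ Q i := by
    intro i
    by_cases hi : i ≤ i0
    · exact hlow i hi
    · by_cases hn : i ≤ n + 1
      · exact hhigh (n + 1 - i) i (by omega) (by omega)
      · rw [rk_eq_zero k Q (fun T _ h => by have := card_le_of_fin T; omega),
          rk_eq_zero ℚ Q (fun T _ h => by have := card_le_of_fin T; omega)]
  exact hd_eq_of_rk k hQ i (hall i) (hall (i + 1))

lemma hd_eq_zero_iff {k : Type} [Field k] (i : ℕ) :
    hd k Q i = 0 ↔ ∀ a : Finset (Fin n) → k, (∀ T, a T ≠ 0 → Q T ∧ T.card = i) →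
      (∀ T, cd a T = 0) → ∃ c : Finset (Fin n) → k, (∀ T, c T ≠ 0 → Q T ∧ T.card = i + 1) ∧
        ∀ T, cd c T = a T := by
  constructor
  · intro h a ha hc
    obtain ⟨c, hc1, hc2⟩ := le_of_hd_eq_zero h (x := a) ⟨ha, by
      change cdL k n a = 0
      funext T
      exact hc T⟩
    exact ⟨c, hc1, fun T => congrFun hc2 T⟩
  · intro h
    unfold hd
    rw [Module.finrank_zero_iff, Submodule.Quotient.subsingleton_iff, Submodule.submoduleOf_eq_top]
    rintro a ⟨ha, hc⟩
    obtain ⟨c, hc1, hc2⟩ := h a ha (fun T => congrFun hc T)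
    exact ⟨c, hc1, funext hc2⟩

/-- a cone is acyclic -/
lemma hd_eq_zero_of_cone {k : Type} [Field k] (i : ℕ) (v : Fin n)
    (hv : ∀ T, v ∉ T → Q T → Q (insert v T)) (hQ : ∀ T T', T ⊆ T' → Q T' → Q T) : hd k Q i = 0 := by
  rw [hd_eq_zero_iff]
  intro a ha hc
  refine Pool.Agent.H677R3.EdgeReg.relAcyc_toggle (k := k) Q i v (fun T hT => ⟨hv T hT, hQ _ _
    (Finset.subset_insert _ _)⟩) a ha (fun T _ => hc T) |>.imp ?_
  intro c hc'
  refine ⟨hc'.1, fun T => ?_⟩
  by_cases hT : Q T
  · exact hc'.2 T hT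
  · have h1 : a T = 0 := by
      by_contra h
      exact hT (ha T h).1
    rw [h1]
    by_contra h
    have : c ∈ Ch k Q (i + 1) := hc'.1
    have h2 := (map_Ch_le (k := k) hQ i ⟨c, this, rfl⟩).1 T h
    exact hT h2.1

end

end Pool.Agent.R371.MB
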