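import Pool.Agent.R371.MB.Edge

/-!
The linear strand of an edge ideal does not depend on the field.
-/

set_option autoImplicit false
set_option linter.unusedSectionVars false

namespace Pool.Agent.R371.MB

open Finset MvPolynomial
open Pool.Agent.H677R3.EdgeReg (sg cd cd_cd cd_zero cd_add cd_sub cd_smul sg_mul_self sg_swap hv)

section phi

variable {K : Type*} [CommRing K] {n : ℕ}

/-- the chain with coefficient `± g u` at `W \ u` -/
def phi (W : Finset (Fin n)) (g : Fin n → K) (T : Finset (Fin n)) : K :=
  ∑ u ∈ W, if T = W.erase u then sg K u (W.erase u) * g u else 0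

lemma phi_erase {W : Finset (Fin n)} (g : Fin n → K) {u : Fin n} (hu : u ∈ W) :
    phi W g (W.erase u) = sg K u (W.erase u) * g u := by
  unfold phi
  rw [Finset.sum_eq_single u]
  · rw [if_pos rfl]
  · intro v hv hvu
    rw [if_neg]
    intro h
    have : v ∈ W.erase u := Finset.mem_erase.2 ⟨hvu, hv⟩
    rw [h] at this
    exact Finset.notMem_erase _ _ this
  · intro h; exact absurd hu h

lemma phi_ne_zero {W : Finset (Fin n)} {g : Fin n → K} {T : Finset (Fin n)} (h : phi W g T ≠ 0) :
    ∃ u ∈ W, T = W.erase u := by
  obtain ⟨u, hu, h2⟩ := Finset.exists_ne_zero_of_sum_ne_zero h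
  by_cases h3 : T = W.erase u
  · exact ⟨u, hu, h3⟩
  · rw [if_neg h3] at h2
    exact absurd rfl h2

lemma cd_phi {W : Finset (Fin n)} (g : Fin n → K) {u v : Fin n} (hu : u ∈ W) (hv : v ∈ W)
    (huv : u ≠ v) : cd (phi W g) ((W.erase u).erase v) =
      sg K u ((W.erase u).erase v) * sg K v (W.erase v) * (g v - g u) := by
  set R := (W.erase u).erase v with hR
  have huR : u ∉ R := by simp [hR]
  have hvR : v ∉ R := by simp [hR]
  have h1 : insert u R = W.erase v := by
    ext x
    simp only [hR, Finset.mem_insert, Finset.mem_erase]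
    constructor
    · rintro (rfl | ⟨h1, h2, h3⟩)
      · exact ⟨huv, hu⟩
      · exact ⟨h1, h3⟩
    · rintro ⟨h1, h2⟩
      by_cases hx : x = u
      · exact Or.inl hx
      · exact Or.inr ⟨h1, hx, h2⟩
  have h2 : insert v R = W.erase u := by
    ext x
    simp only [hR, Finset.mem_insert, Finset.mem_erase]
    constructor
    · rintro (rfl | ⟨h1, h2, h3⟩)
      · exact ⟨huv.symm, hv⟩
      · exact ⟨h2, h3⟩
    · rintro ⟨h1, h2⟩
      by_cases hx : x = v
      · exact Or.inl hx
      · exact Or.inr ⟨hx, h1, h2⟩
  have h3 : cd (phi W g) R = sg K u R * phi W g (insert u R) + sg K v R * phi W g (insert v R) := by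
    unfold cd
    apply Finset.sum_eq_add u v huv
    · rintro x - ⟨hx1, hx2⟩
      by_cases h4 : phi W g (insert x R) = 0
      · rw [h4, mul_zero]
      · obtain ⟨y, hy, hy2⟩ := phi_ne_zero h4
        exfalso
        have hxW : x ∈ W := by
          have : x ∈ W.erase y := by rw [← hy2]; exact Finset.mem_insert_self _ _
          exact (Finset.mem_erase.1 this).2
        have hxR : x ∈ R := by
          rw [hR, Finset.mem_erase, Finset.mem_erase]
          exact ⟨hx2, hx1, hxW⟩
        rw [Finset.insert_eq_of_mem hxR] at hy2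
        have c1 : R.card + 2 = W.card := by
          rw [hR, Finset.card_erase_of_mem (Finset.mem_erase.2 ⟨huv.symm, hv⟩),
            Finset.card_erase_of_mem hu]
          have : 1 < W.card := Finset.one_lt_card.2 ⟨u, hu, v, hv, huv⟩
          omega
        have c2 : R.card + 1 = W.card := by
          rw [hy2, Finset.card_erase_of_mem hy]
          have : 0 < W.card := Finset.card_pos.2 ⟨u, hu⟩
          omega
        omega
    · intro h; exact absurd (Finset.mem_compl.2 huR) h
    · intro h; exact absurd (Finset.mem_compl.2 hvR) h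
  rw [h3, h1, h2, phi_erase g hv, phi_erase g hu]
  have h4 := sg_swap (k := K) huv huR hvR
  rw [h1, h2] at h4
  linear_combination (-(g u)) * (-h4)

lemma cd_phi_ne_zero {W : Finset (Fin n)} {g : Fin n → K} {T : Finset (Fin n)}
    (h : cd (phi W g) T ≠ 0) :
    ∃ u ∈ W, ∃ v ∈ W, u ≠ v ∧ T = (W.erase u).erase v ∧ g v ≠ g u := by
  have h' := h
  unfold cd at h
  obtain ⟨x, hx, h2⟩ := Finset.exists_ne_zero_of_sum_ne_zero h
  have hxT : x ∉ T := by simpa using hx
  have h3 : phi W g (insert x T) ≠ 0 := fun h4 => h2 (by rw [h4, mul_zero])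
  obtain ⟨u, hu, hu2⟩ := phi_ne_zero h3
  have h5 : x ∈ W.erase u := by rw [← hu2]; exact Finset.mem_insert_self _ _
  rw [Finset.mem_erase] at h5
  have hT : T = (W.erase u).erase x := by rw [← hu2, Finset.erase_insert hxT]
  refine ⟨u, hu, x, h5.2, h5.1.symm, hT, ?_⟩
  intro h6
  apply h'
  rw [hT, cd_phi g hu h5.2 h5.1.symm, h6, sub_self, mul_zero]

end phi

section

variable {n : ℕ} (G : SimpleGraph (Fin n)) (W : Finset (Fin n))

/-- the complement graph on `W` -/
def coG : SimpleGraph (Fin n) where
  Adj u v := u ≠ v ∧ u ∈ W ∧ v ∈ W ∧ ¬ G.Adj u v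
  symm := ⟨fun u v h => ⟨h.1.symm, h.2.2.1, h.2.1, fun h' => h.2.2.2 h'.symm⟩⟩
  loopless := ⟨fun u h => h.1 rfl⟩

open Classical in
/-- indicator function of a component -/
noncomputable def chi (K : Type*) [CommRing K] (C : (coG G W).ConnectedComponent) (u : Fin n) : K :=
  if (coG G W).connectedComponentMk u = C then 1 else 0

lemma sum_chi {K : Type*} [CommRing K] [Fintype (coG G W).ConnectedComponent] (g : Fin n → K)
    (hg : ∀ u v, (coG G W).Adj u v → g u = g v) :
    ∃ γ : (coG G W).ConnectedComponent → K, g = ∑ C, γ C • chi G W K C := by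
  classical
  have hreach : ∀ u v, (coG G W).Reachable u v → g u = g v := by
    rintro u v ⟨p⟩
    induction p with
    | nil => rfl
    | cons h _ ih => rw [hg _ _ h, ih]
  refine ⟨fun C => g C.out, ?_⟩
  funext u
  rw [Finset.sum_apply, Finset.sum_eq_single ((coG G W).connectedComponentMk u)]
  · simp only [Pi.smul_apply, smul_eq_mul, chi, if_true, mul_one]
    apply hreach
    have : (coG G W).connectedComponentMk ((coG G W).connectedComponentMk u).out =
        (coG G W).connectedComponentMk u := Quot.out_eq _
    exact (SimpleGraph.ConnectedComponent.exact this).symm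
  · intro C _ hC
    simp only [Pi.smul_apply, smul_eq_mul, chi]
    rw [if_neg (fun h => hC h.symm), mul_zero]
  · intro h; exact absurd (Finset.mem_univ _) h

lemma chi_adj {K : Type*} [CommRing K] (C : (coG G W).ConnectedComponent) {u v : Fin n}
    (h : (coG G W).Adj u v) : chi G W K C u = chi G W K C v := by
  unfold chi
  have : (coG G W).connectedComponentMk u = (coG G W).connectedComponentMk v :=
    SimpleGraph.ConnectedComponent.sound h.reachable
  rw [this]

lemma Qf_pair {u v : Fin n} (hu : u ∈ W) (hv : v ∈ W) (huv : u ≠ v) :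
    Qf (EU G) (ind W) ((W.erase u).erase v) ↔ G.Adj u v := by
  rw [Qf_EU_iff]
  constructor
  · rintro ⟨-, i, j, hij, h1, h2, h3, h4⟩
    have e1 : i = u ∨ i = v := by
      by_contra hcon
      push Not at hcon
      exact h3 (Finset.mem_erase.2 ⟨hcon.2, Finset.mem_erase.2 ⟨hcon.1, h1⟩⟩)
    have e2 : j = u ∨ j = v := by
      by_contra hcon
      push Not at hcon
      exact h4 (Finset.mem_erase.2 ⟨hcon.2, Finset.mem_erase.2 ⟨hcon.1, h2⟩⟩)
    have hne := hij.ne
    rcases e1 with rfl | rfl <;> rcases e2 with rfl | rfl
    · exact absurd rfl hne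
    · exact hij
    · exact hij.symm
    · exact absurd rfl hne
  · intro h
    refine ⟨(Finset.erase_subset _ _).trans (Finset.erase_subset _ _), u, v, h, hu, hv, ?_, ?_⟩
    · simp
    · simp

/-- the cycles of the linear strand are spanned by integral ones -/
lemma cycles_strand (k : Type) [Field k] [Fintype (coG G W).ConnectedComponent] (hW : 2 ≤ W.card) :
    Ch k (Qf (EU G) (ind W)) (W.card - 2) ⊓ LinearMap.ker (cdL k n) =
      Submodule.span k (Set.range fun (C : (coG G W).ConnectedComponent) (x : Finset (Fin n)) =>
        ((cd (phi W (chi G W ℤ C)) x : ℤ) : k)) := by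
  classical
  have hcast : ∀ C : (coG G W).ConnectedComponent,
      (fun x => ((cd (phi W (chi G W ℤ C)) x : ℤ) : k)) = cd (phi W (chi G W k C)) := by
    intro C
    funext x
    rw [← cast_cd]
    congr 1
    funext T
    unfold phi
    push_cast
    refine Finset.sum_congr rfl fun u _ => ?_
    split_ifs
    · simp only [sg, chi]
      push_cast
      split_ifs <;> simp
    · simp
  have hphi : ∀ g : Fin n → k, (∀ u v, (coG G W).Adj u v → g u = g v) →
      cd (phi W g) ∈ Ch k (Qf (EU G) (ind W)) (W.card - 2) ⊓ LinearMap.ker (cdL k n) := by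
    intro g hg
    refine ⟨?_, ?_⟩
    · intro T hT
      obtain ⟨u, hu, v, hv, huv, rfl, hne⟩ := cd_phi_ne_zero hT
      refine ⟨?_, ?_⟩
      · rw [Qf_pair G W hu hv huv]
        by_contra hadj
        exact hne (hg u v ⟨huv, hu, hv, hadj⟩).symm
      · rw [Finset.card_erase_of_mem (Finset.mem_erase.2 ⟨huv.symm, hv⟩),
          Finset.card_erase_of_mem hu]
        omega
    · change cdL k n _ = 0
      funext T
      exact cd_cd _ T
  apply le_antisymm
  · rintro a ⟨ha1, ha2⟩
    have hW0 : W.Nonempty := Finset.card_pos.1 (by omega)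
    obtain ⟨v0, hv0⟩ := hW0
    have ha2' : ∀ T, cd a T = 0 := fun T => congrFun ha2 T
    have hb : ∀ T, cd (hv v0 a) T = a T := cd_hv v0 a ha2'
    have hbs : ∀ T, hv v0 a T ≠ 0 → T ⊆ W ∧ T.card = W.card - 2 + 1 := fun T hT =>
      hv_supp hv0 (fun T hT => ⟨ind_le_ind.1 (ha1 T hT).1.1, (ha1 T hT).2⟩) hT
    let g : Fin n → k := fun u => sg k u (W.erase u) * hv v0 a (W.erase u)
    have hbg : hv v0 a = phi W g := by
      funext T
      by_cases hT : ∃ u ∈ W, T = W.erase u
      · obtain ⟨u, hu, rfl⟩ := hT
        rw [phi_erase g hu]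
        simp only [g]
        rw [← mul_assoc, sg_mul_self, one_mul]
      · have h1 : phi W g T = 0 := by
          by_contra h
          exact hT (phi_ne_zero h)
        rw [h1]
        by_contra h
        obtain ⟨h2, h3⟩ := hbs T h
        apply hT
        have h4 : (W \ T).card = 1 := by
          rw [Finset.card_sdiff_of_subset h2]
          omega
        obtain ⟨u, hu⟩ := Finset.card_eq_one.1 h4
        have huW : u ∈ W \ T := by rw [hu]; exact Finset.mem_singleton_self _
        rw [Finset.mem_sdiff] at huW
        refine ⟨u, huW.1, ?_⟩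
        ext x
        rw [Finset.mem_erase]
        constructor
        · intro hx
          exact ⟨fun h' => huW.2 (h' ▸ hx), h2 hx⟩
        · rintro ⟨h5, h6⟩
          by_contra h7
          have : x ∈ W \ T := Finset.mem_sdiff.2 ⟨h6, h7⟩
          rw [hu, Finset.mem_singleton] at this
          exact h5 this
    have hag : a = cd (phi W g) := by
      funext T
      rw [← hbg, hb]
    have hg : ∀ u v, (coG G W).Adj u v → g u = g v := by
      rintro u v ⟨huv, hu, hv, hadj⟩
      have h1 : a ((W.erase u).erase v) = 0 := by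
        by_contra h
        exact hadj ((Qf_pair G W hu hv huv).1 (ha1 _ h).1)
      rw [hag, cd_phi g hu hv huv] at h1
      rcases mul_eq_zero.1 h1 with h2 | h2
      · exfalso
        rcases mul_eq_zero.1 h2 with h3 | h3
        · have := sg_mul_self (k := k) u ((W.erase u).erase v)
          rw [h3] at this
          simp at this
        · have := sg_mul_self (k := k) v (W.erase v)
          rw [h3] at this
          simp at this
      · exact (sub_eq_zero.1 h2).symm
    obtain ⟨γ, hγ⟩ := sum_chi G W g hg
    have hlin : cd (phi W g) = ∑ C, γ C • cd (phi W (chi G W k C)) := by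
      let L : (Fin n → k) →ₗ[k] (Finset (Fin n) → k) :=
        { toFun := fun g => cd (phi W g)
          map_add' := by
            intro g1 g2
            funext T
            rw [Pi.add_apply, ← cd_add]
            congr 1
            funext T'
            unfold phi
            rw [← Finset.sum_add_distrib]
            refine Finset.sum_congr rfl fun u _ => ?_
            split_ifs
            · rw [Pi.add_apply, mul_add]
            · rw [add_zero]
          map_smul' := by
            intro r g1
            funext T
            rw [RingHom.id_apply, Pi.smul_apply, smul_eq_mul, ← cd_smul]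
            congr 1
            funext T'
            unfold phi
            rw [Finset.mul_sum]
            refine Finset.sum_congr rfl fun u _ => ?_
            split_ifs
            · rw [Pi.smul_apply, smul_eq_mul]; ring
            · rw [mul_zero] }
      change L g = ∑ C, γ C • L (chi G W k C)
      conv_lhs => rw [hγ]
      rw [map_sum]
      exact Finset.sum_congr rfl fun C _ => map_smul _ _ _
    rw [hag, hlin]
    refine Submodule.sum_mem _ fun C _ => Submodule.smul_mem _ _ (Submodule.subset_span ⟨C, ?_⟩)
    exact hcast C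
  · rw [Submodule.span_le]
    rintro _ ⟨C, rfl⟩
    change (fun x => ((cd (phi W (chi G W ℤ C)) x : ℤ) : k)) ∈ _
    rw [hcast]
    exact hphi _ fun u v h => chi_adj G W C h

lemma finrank_cyc (k : Type) [Field k] (Q : Finset (Fin n) → Prop) (i : ℕ) :
    Module.finrank k ↥(Ch k Q i ⊓ LinearMap.ker (cdL k n)) + rk k Q i = nb Q i := by
  have h3 := LinearMap.finrank_range_add_finrank_ker ((cdL k n).domRestrict (Ch k Q i))
  rw [LinearMap.range_domRestrict] at h3
  have h4 : Module.finrank k (LinearMap.ker ((cdL k n).domRestrict (Ch k Q i))) =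
      Module.finrank k ↥(Ch k Q i ⊓ LinearMap.ker (cdL k n)) := by
    rw [LinearMap.ker_domRestrict, ← Submodule.map_comap_subtype]
    exact (Submodule.equivSubtypeMap _ _).finrank_eq
  rw [finrank_Ch] at h3
  unfold rk
  omega

/-- the rank of the last differential does not depend on the field -/
lemma rk_strand (k : Type) [Field k] (hW : 2 ≤ W.card) :
    rk k (Qf (EU G) (ind W)) (W.card - 2) = rk ℚ (Qf (EU G) (ind W)) (W.card - 2) := by
  classical
  have : Fintype (coG G W).ConnectedComponent := Fintype.ofFinite _
  have h1 := finrank_cyc k (Qf (EU G) (ind W)) (W.card - 2)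
  have h2 := finrank_cyc ℚ (Qf (EU G) (ind W)) (W.card - 2)
  rw [cycles_strand G W k hW] at h1
  rw [cycles_strand G W ℚ hW] at h2
  have h3 := finrank_span_le k (fun (C : (coG G W).ConnectedComponent) (x : Finset (Fin n)) =>
    cd (phi W (chi G W ℤ C)) x)
  have h4 := rk_le k (Qf (EU G) (ind W)) (W.card - 2)
  omega

end

end Pool.Agent.R371.MB
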