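import Pool.Agent.R371.MB.Pow

/-!
The torsion of the Koszul homology of all powers of a monomial ideal over `ℤ` is killed by one
positive integer.
-/

set_option autoImplicit false

namespace Pool.Agent.R371.MB

open Finset MvPolynomial
open Pool.Agent.H677R3.EdgeReg (sg cd cd_cd cd_zero cd_add cd_sub cd_smul)

section abs

variable {R : Type*} [CommRing R] [IsNoetherianRing R] {M : Type*} [AddCommGroup M] [Module R M]
  [Module.Finite R M]

/-- In a finite module over a Noetherian ring the torsion modulo a submodule has a common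
exponent. -/
lemma exists_uniform (B : Submodule R M) :
    ∃ N : ℕ, 0 < N ∧ ∀ z : M, (∃ m : ℕ, 0 < m ∧ m • z ∈ B) → N • z ∈ B := by
  classical
  let S : Submodule R M :=
    { carrier := {z | ∃ m : ℕ, 0 < m ∧ m • z ∈ B}
      zero_mem' := ⟨1, one_pos, by simp⟩
      add_mem' := by
        rintro a b ⟨m, hm, ha⟩ ⟨m', hm', hb⟩
        refine ⟨m * m', Nat.mul_pos hm hm', ?_⟩
        rw [smul_add, mul_comm m m', mul_smul, mul_comm m' m, mul_smul]
        exact B.add_mem (B.smul_of_tower_mem _ ha) (B.smul_of_tower_mem _ hb)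
      smul_mem' := by
        rintro r a ⟨m, hm, ha⟩
        refine ⟨m, hm, ?_⟩
        rw [smul_comm]
        exact B.smul_mem _ ha }
  have hfg : S.FG := IsNoetherian.noetherian S
  obtain ⟨s, hs⟩ := hfg
  have hex : ∀ x : M, ∃ m : ℕ, 0 < m ∧ (x ∈ s → m • x ∈ B) := by
    intro x
    by_cases hx : x ∈ s
    · have : x ∈ S := by
        rw [← hs]
        exact Submodule.subset_span hx
      obtain ⟨m, hm, h⟩ := this
      exact ⟨m, hm, fun _ => h⟩
    · exact ⟨1, one_pos, fun h => absurd h hx⟩
  choose m hm hm2 using hex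
  refine ⟨∏ x ∈ s, m x, Finset.prod_pos fun x _ => hm x, ?_⟩
  intro z hz
  have hzS : z ∈ Submodule.span R (s : Set M) := by
    rw [hs]
    exact hz
  induction hzS using Submodule.span_induction with
  | mem x hx =>
    obtain ⟨c, hc⟩ := Finset.dvd_prod_of_mem m hx
    rw [hc, mul_comm, mul_smul]
    exact B.smul_of_tower_mem _ (hm2 x hx)
  | zero => rw [smul_zero]; exact B.zero_mem
  | add x y hx hy ihx ihy =>
    rw [smul_add]
    refine B.add_mem (ihx ?_) (ihy ?_)
    · have : x ∈ S := by rw [← hs]; exact hx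
      exact this
    · have : y ∈ S := by rw [← hs]; exact hy
      exact this
  | smul r x hx ihx =>
    rw [smul_comm]
    refine B.smul_mem _ (ihx ?_)
    have : x ∈ S := by rw [← hs]; exact hx
    exact this

end abs

section rees

variable {n : ℕ}

/-- a common exponent for the torsion of the Koszul homology of the powers of an ideal -/
lemma exists_uniform_koszul (J : Ideal (MvPolynomial (Fin n) ℤ)) :
    ∃ N : ℕ, 0 < N ∧ ∀ (h : ℕ) (z : Finset (Fin n) → MvPolynomial (Fin n) ℤ), (∀ T, z T ∈ J ^ h) →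
      (∃ m : ℕ, 0 < m ∧ ∃ y : Finset (Fin n) → MvPolynomial (Fin n) ℤ, (∀ T, y T ∈ J ^ h) ∧
        kD ℤ n y = m • z) →
      ∃ w : Finset (Fin n) → MvPolynomial (Fin n) ℤ, (∀ T, w T ∈ J ^ h) ∧ kD ℤ n w = N • z := by
  classical
  let A := reesAlgebra J
  let d : (Finset (Fin n) → A) →ₗ[A] (Finset (Fin n) → A) :=
    { toFun := fun f T => ∑ j ∈ Tᶜ, (-1) ^ (T.filter (· < j)).card *
        (algebraMap (MvPolynomial (Fin n) ℤ) A (X j) * f (insert j T))
      map_add' := fun f g => by
        funext T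
        simp only [Pi.add_apply, mul_add, Finset.sum_add_distrib]
      map_smul' := fun c f => by
        funext T
        simp only [Pi.smul_apply, smul_eq_mul, RingHom.id_apply, Finset.mul_sum]
        refine Finset.sum_congr rfl fun j _ => ?_
        ring }
  obtain ⟨N, hN, hN2⟩ := exists_uniform (LinearMap.range d)
  refine ⟨N, hN, ?_⟩
  rintro h z hz ⟨m, hm, y, hy, hyz⟩
  let lift : (x : Finset (Fin n) → MvPolynomial (Fin n) ℤ) → (∀ T, x T ∈ J ^ h) →
      Finset (Fin n) → A := fun x hx T => ⟨Polynomial.monomial h (x T),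
        reesAlgebra.monomial_mem.2 (hx T)⟩
  have hd : ∀ (f : Finset (Fin n) → A) (T : Finset (Fin n)) (e : ℕ),
      ((d f T : A) : Polynomial (MvPolynomial (Fin n) ℤ)).coeff e =
        kD ℤ n (fun T => ((f T : A) : Polynomial (MvPolynomial (Fin n) ℤ)).coeff e) T := by
    intro f T e
    change ((∑ j ∈ Tᶜ, (-1) ^ (T.filter (· < j)).card *
        (algebraMap (MvPolynomial (Fin n) ℤ) A (X j) * f (insert j T)) : A) :
          Polynomial (MvPolynomial (Fin n) ℤ)).coeff e =
        ∑ j ∈ Tᶜ, (-1) ^ (T.filter (· < j)).card *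
          (X j * ((f (insert j T) : A) : Polynomial (MvPolynomial (Fin n) ℤ)).coeff e)
    rw [AddSubmonoidClass.coe_finsetSum, Polynomial.finsetSum_coeff]
    refine Finset.sum_congr rfl fun j _ => ?_
    have h1 : (((-1) ^ (T.filter (· < j)).card *
        (algebraMap (MvPolynomial (Fin n) ℤ) A (X j) * f (insert j T)) : A) :
          Polynomial (MvPolynomial (Fin n) ℤ)) = Polynomial.C ((-1) ^ (T.filter (· < j)).card) *
            (Polynomial.C (X j) * (f (insert j T) : Polynomial (MvPolynomial (Fin n) ℤ))) := by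
      push_cast
      simp
    rw [h1, Polynomial.coeff_C_mul, Polynomial.coeff_C_mul]
  have hz1 : N • lift z hz ∈ LinearMap.range d := by
    apply hN2
    refine ⟨m, hm, lift y hy, ?_⟩
    funext T
    apply Subtype.ext
    ext1 e
    rw [hd]
    by_cases he : e = h
    · subst he
      have h2 : (fun T => ((lift y hy T : A) : Polynomial (MvPolynomial (Fin n) ℤ)).coeff e) = y := by
        funext T
        exact Polynomial.coeff_monomial_same _ _
      rw [h2, hyz]
      change _ = ((m • lift z hz T : A) : Polynomial (MvPolynomial (Fin n) ℤ)).coeff e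
      rw [AddSubmonoidClass.coe_nsmul, Polynomial.coeff_smul]
      change _ = m • (Polynomial.monomial e (z T)).coeff e
      rw [Polynomial.coeff_monomial_same]
      rfl
    · have h2 : (fun T => ((lift y hy T : A) : Polynomial (MvPolynomial (Fin n) ℤ)).coeff e) = 0 := by
        funext T
        exact Polynomial.coeff_monomial_of_ne _ he
      rw [h2, map_zero]
      change _ = ((m • lift z hz T : A) : Polynomial (MvPolynomial (Fin n) ℤ)).coeff e
      rw [AddSubmonoidClass.coe_nsmul, Polynomial.coeff_smul]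
      change _ = m • (Polynomial.monomial h (z T)).coeff e
      rw [Polynomial.coeff_monomial_of_ne _ he]
      simp
  obtain ⟨w, hw⟩ := hz1
  refine ⟨fun T => ((w T : A) : Polynomial (MvPolynomial (Fin n) ℤ)).coeff h, ?_, ?_⟩
  · intro T
    exact (mem_reesAlgebra_iff _ _).1 (w T).2 h
  · funext T
    rw [← hd, hw]
    change ((N • lift z hz T : A) : Polynomial (MvPolynomial (Fin n) ℤ)).coeff h = _
    rw [AddSubmonoidClass.coe_nsmul, Polynomial.coeff_smul]
    change N • (Polynomial.monomial h (z T)).coeff h = _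
    rw [Polynomial.coeff_monomial_same]
    rfl

end rees

section rank

variable {ι κ : Type} [Fintype ι] [Fintype κ]

lemma cast_mem_span {ι κ : Type*} (K : Type*) [CommRing K] (v : ι → κ → ℤ) {z : κ → ℤ}
    (hz : z ∈ Submodule.span ℤ (Set.range v)) :
    (fun x => ((z x : ℤ) : K)) ∈ Submodule.span K (Set.range fun i x => ((v i x : ℤ) : K)) := by
  induction hz using Submodule.span_induction with
  | mem x hx =>
    obtain ⟨i, rfl⟩ := hx
    exact Submodule.subset_span ⟨i, rfl⟩
  | zero =>
    have : (fun x : κ => (((0 : κ → ℤ) x : ℤ) : K)) = 0 := by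
      funext x; simp
    rw [this]; exact Submodule.zero_mem _
  | add a b ha hb iha ihb =>
    have : (fun x : κ => (((a + b : κ → ℤ) x : ℤ) : K)) =
        (fun x => ((a x : ℤ) : K)) + (fun x => ((b x : ℤ) : K)) := by
      funext x; simp
    rw [this]; exact Submodule.add_mem _ iha ihb
  | smul r a ha iha =>
    have : (fun x : κ => (((r • a : κ → ℤ) x : ℤ) : K)) = (r : K) • (fun x => ((a x : ℤ) : K)) := by
      funext x; simp
    rw [this]; exact Submodule.smul_mem _ _ iha

lemma finrank_span_ge (p : ℕ) [Fact p.Prime] (v : ι → κ → ℤ) (N : ℕ) (hp : ¬ p ∣ N)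
    (hN : ∀ z : κ → ℤ, (∃ m : ℕ, 0 < m ∧ m • z ∈ Submodule.span ℤ (Set.range v)) →
      N • z ∈ Submodule.span ℤ (Set.range v)) :
    Module.finrank ℚ (Submodule.span ℚ (Set.range fun i x => ((v i x : ℤ) : ℚ))) ≤
      Module.finrank (ZMod p)
        (Submodule.span (ZMod p) (Set.range fun i x => ((v i x : ℤ) : ZMod p))) := by
  classical
  set V := Submodule.span ℤ (Set.range v) with hV
  let S : Submodule ℤ (κ → ℤ) :=
    { carrier := {z | ∃ m : ℕ, 0 < m ∧ m • z ∈ V}
      zero_mem' := ⟨1, one_pos, by simp⟩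
      add_mem' := by
        rintro a b ⟨m, hm, ha⟩ ⟨m', hm', hb⟩
        refine ⟨m * m', Nat.mul_pos hm hm', ?_⟩
        rw [smul_add, mul_comm m m', mul_smul, mul_comm m' m, mul_smul]
        exact V.add_mem (V.smul_of_tower_mem _ ha) (V.smul_of_tower_mem _ hb)
      smul_mem' := by
        rintro r a ⟨m, hm, ha⟩
        refine ⟨m, hm, ?_⟩
        rw [smul_comm]
        exact V.smul_mem _ ha }
  have hVS : V ≤ S := fun z hz => ⟨1, one_pos, by rwa [one_smul]⟩
  let e := Module.finBasis ℤ S
  set r := Module.finrank ℤ S with hr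
  let e' : Fin r → κ → ℤ := fun j => (e j).1
  have hli : LinearIndependent ℤ e' := e.linearIndependent.map' S.subtype S.ker_subtype
  have hspan : ∀ z ∈ S, z ∈ Submodule.span ℤ (Set.range e') := by
    intro z hz
    have h1 := e.sum_repr ⟨z, hz⟩
    have h2 : z = ∑ j, (e.repr ⟨z, hz⟩ j) • e' j := by
      conv_lhs => rw [show z = (⟨z, hz⟩ : S).1 from rfl, ← h1]
      rw [AddSubmonoidClass.coe_finsetSum]
      rfl
    rw [h2]
    exact Submodule.sum_mem _ fun j _ => Submodule.smul_mem _ _ (Submodule.subset_span ⟨j, rfl⟩)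
  -- first inequality
  have h1 : Module.finrank ℚ (Submodule.span ℚ (Set.range fun i x => ((v i x : ℤ) : ℚ))) ≤ r := by
    have h2 : Submodule.span ℚ (Set.range fun i x => ((v i x : ℤ) : ℚ)) ≤
        Submodule.span ℚ (Set.range fun j x => ((e' j x : ℤ) : ℚ)) := by
      rw [Submodule.span_le]
      rintro _ ⟨i, rfl⟩
      exact cast_mem_span ℚ e' (hspan _ (hVS (Submodule.subset_span ⟨i, rfl⟩)))
    refine (Submodule.finrank_mono h2).trans ?_
    have := finrank_range_le_card (R := ℚ) (fun (j : Fin r) (x : κ) => ((e' j x : ℤ) : ℚ))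
    simpa [Set.finrank] using this
  -- independence modulo p
  have hp0 : (p : ℤ) ≠ 0 := by exact_mod_cast (Fact.out : p.Prime).ne_zero
  have h3 : LinearIndependent (ZMod p) (fun (j : Fin r) (x : κ) => ((e' j x : ℤ) : ZMod p)) := by
    rw [Fintype.linearIndependent_iff]
    intro g hg j
    have hg' : ∀ j, (((g j).val : ℤ) : ZMod p) = g j := by
      intro j; simp
    let z : κ → ℤ := ∑ j, ((g j).val : ℤ) • e' j
    have hz : ∀ x, (p : ℤ) ∣ z x := by
      intro x
      rw [← ZMod.intCast_zmod_eq_zero_iff_dvd (z x) p]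
      have := congrFun hg x
      simp only [Finset.sum_apply, Pi.smul_apply, smul_eq_mul, Pi.zero_apply] at this
      simp only [z, Finset.sum_apply, Pi.smul_apply, smul_eq_mul]
      push_cast
      rw [← this]
      refine Finset.sum_congr rfl fun j _ => ?_
      rw [← hg' j]
      simp
    choose w hw using hz
    have hwz : z = (p : ℤ) • w := by
      funext x
      rw [hw x]; rfl
    have hzS : z ∈ S := Submodule.sum_mem _ fun j _ => S.smul_mem _ (e j).2
    have hwS : w ∈ S := by
      obtain ⟨m, hm, hmz⟩ := hzS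
      refine ⟨m * p, Nat.mul_pos hm (Fact.out : p.Prime).pos, ?_⟩
      rw [mul_smul]
      convert hmz using 2
      rw [hwz]
      simp
    have h4 : ∑ j, (((g j).val : ℤ) - (p : ℤ) * e.repr ⟨w, hwS⟩ j) • e' j = 0 := by
      have h5 := e.sum_repr ⟨w, hwS⟩
      have h6 : w = ∑ j, (e.repr ⟨w, hwS⟩ j) • e' j := by
        conv_lhs => rw [show w = (⟨w, hwS⟩ : S).1 from rfl, ← h5]
        rw [AddSubmonoidClass.coe_finsetSum]
        rfl
      simp only [sub_smul, mul_smul, Finset.sum_sub_distrib]
      rw [← Finset.smul_sum, ← h6, ← hwz]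
      exact sub_self _
    have h7 := Fintype.linearIndependent_iff.1 hli _ h4 j
    rw [← hg' j, sub_eq_zero.1 h7]
    simp
  have h4 : r = Module.finrank (ZMod p)
      (Submodule.span (ZMod p) (Set.range fun (j : Fin r) (x : κ) => ((e' j x : ℤ) : ZMod p))) := by
    rw [finrank_span_eq_card h3, Fintype.card_fin]
  refine h1.trans ?_
  rw [h4]
  apply Submodule.finrank_mono
  rw [Submodule.span_le]
  rintro _ ⟨j, rfl⟩
  have hNj : N • e' j ∈ V := hN _ (e j).2
  have h5 := cast_mem_span (ZMod p) v hNj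
  have hNp : (N : ZMod p) ≠ 0 := by
    rw [Ne, ZMod.natCast_eq_zero_iff]
    exact hp
  have h6 : (fun x => ((e' j x : ℤ) : ZMod p)) = (N : ZMod p)⁻¹ •
      (fun x => (((N • e' j) x : ℤ) : ZMod p)) := by
    funext x
    simp only [Pi.smul_apply, nsmul_eq_mul, Int.cast_mul, Int.cast_natCast, smul_eq_mul]
    rw [inv_mul_cancel_left₀ hNp]
  change (fun x => ((e' j x : ℤ) : ZMod p)) ∈ Submodule.span _ _
  rw [h6]
  exact Submodule.smul_mem _ _ h5

end rank

section final

variable {n : ℕ} {Γ : Type} [Fintype Γ]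

lemma comp_nsmul (m : ℕ) (f : Finset (Fin n) → MvPolynomial (Fin n) ℤ) (b : Fin n →₀ ℕ) :
    comp (m • f) b = m • comp f b := by
  funext T
  simp only [comp, Pi.smul_apply, MvPolynomial.coeff_smul]
  split_ifs <;> simp

lemma comp_ne_zero {J : Ideal (MvPolynomial (Fin n) ℤ)} {U : (Fin n →₀ ℕ) → Prop}
    (hJ : ∀ p, p ∈ J ↔ ∀ c ∈ p.support, U c) {f : Finset (Fin n) → MvPolynomial (Fin n) ℤ}
    (hf : ∀ T, f T ∈ J) {b : Fin n →₀ ℕ} {T : Finset (Fin n)} (h : comp f b T ≠ 0) : Qf U b T := by
  unfold comp at h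
  split_ifs at h with hle
  · exact ⟨hle, (hJ _).1 (hf T) _ (MvPolynomial.mem_support_iff.2 h)⟩
  · exact absurd rfl h

lemma asm_mem {J : Ideal (MvPolynomial (Fin n) ℤ)} {U : (Fin n →₀ ℕ) → Prop}
    (hJ : ∀ p, p ∈ J ↔ ∀ c ∈ p.support, U c) {b : Fin n →₀ ℕ} {i : ℕ} {z : Finset (Fin n) → ℤ}
    (hz : z ∈ Ch ℤ (Qf U b) i) (T : Finset (Fin n)) : asm {b} (fun _ => z) T ∈ J := by
  classical
  rw [hJ]
  intro c hc
  rw [asm, Finset.sum_singleton, MvPolynomial.mem_support_iff, MvPolynomial.coeff_monomial] at hc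
  split_ifs at hc with h
  · rw [← h]
    exact (hz T hc).1.2
  · exact absurd rfl hc

lemma uniform_span (α : Γ → Fin n →₀ ℕ) : ∃ N : ℕ, 0 < N ∧ ∀ (h : ℕ) (b : Fin n →₀ ℕ) (i : ℕ)
    (z : Finset (Fin n) → ℤ),
    (∃ m : ℕ, 0 < m ∧ m • z ∈ (Ch ℤ (Qf (PU α h) b) (i + 1)).map (cdL ℤ n)) →
      N • z ∈ (Ch ℤ (Qf (PU α h) b) (i + 1)).map (cdL ℤ n) := by
  classical
  obtain ⟨N, hN, hN2⟩ := exists_uniform_koszul
    (Ideal.span ((fun a => monomial a (1 : ℤ)) '' Set.range α))
  refine ⟨N, hN, ?_⟩
  rintro h b i z ⟨m, hm, y, hy, hyz⟩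
  have hJ := mem_span_pow ℤ α h
  have hz : z ∈ Ch ℤ (Qf (PU α h) b) i := by
    have h1 : m • z ∈ Ch ℤ (Qf (PU α h) b) i := by
      rw [← hyz]
      exact (map_Ch_le (Qf_down (fun _ _ => PU_mono α h) b) i ⟨y, hy, rfl⟩).1
    intro T hT
    refine h1 T ?_
    simp only [Pi.smul_apply, nsmul_eq_mul, ne_eq, mul_eq_zero, not_or]
    exact ⟨by exact_mod_cast hm.ne', hT⟩
  have hzG : ∀ (b' : Fin n →₀ ℕ) T, b' = b → z T ≠ 0 → ind T ≤ b' := by
    rintro b' T rfl hne
    exact (hz T hne).1.1
  have hcz : ∀ b', comp (asm {b} (fun _ => z)) b' = if b' = b then z else 0 := by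
    intro b'
    have h0 : asm {b} (fun _ => z) = asm {b} (fun b' => if b' = b then z else 0) := by
      funext T
      simp [asm]
    rw [h0, comp_asm]
    · by_cases hb : b' = b
      · simp [hb]
      · simp [hb]
    · intro b' T hne
      by_cases hb : b' = b
      · rw [if_pos hb] at hne
        exact hzG b' T hb hne
      · rw [if_neg hb] at hne
        exact absurd rfl hne
  have hcy : ∀ b', comp (asm {b} (fun _ => y)) b' = if b' = b then y else 0 := by
    intro b'
    have h0 : asm {b} (fun _ => y) = asm {b} (fun b' => if b' = b then y else 0) := by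
      funext T
      simp [asm]
    rw [h0, comp_asm]
    · by_cases hb : b' = b
      · simp [hb]
      · simp [hb]
    · intro b' T hne
      by_cases hb : b' = b
      · rw [if_pos hb] at hne
        rw [hb]
        exact (hy T hne).1.1
      · rw [if_neg hb] at hne
        exact absurd rfl hne
  obtain ⟨w, hw, hw2⟩ := hN2 h (asm {b} (fun _ => z)) (asm_mem hJ hz)
    ⟨m, hm, asm {b} (fun _ => y), asm_mem hJ hy, by
      apply ext_comp
      intro b'
      have h1 : comp (kD ℤ n (asm {b} (fun _ => y))) b' =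
          cdL ℤ n (comp (asm {b} (fun _ => y)) b') := by
        funext T
        rw [comp_kD]; rfl
      rw [h1, hcy, comp_nsmul, hcz]
      split_ifs
      · exact hyz
      · rw [map_zero, smul_zero]⟩
  refine ⟨fun T => if T.card = i + 1 then comp w b T else 0, ?_, ?_⟩
  · intro T hT
    change (if T.card = i + 1 then comp w b T else 0) ≠ 0 at hT
    by_cases hc : T.card = i + 1
    · rw [if_pos hc] at hT
      exact ⟨comp_ne_zero hJ hw hT, hc⟩
    · rw [if_neg hc] at hT
      exact absurd rfl hT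
  · funext T
    rw [cdL_apply]
    by_cases hc : T.card = i
    · have h1 : cd (fun T => if T.card = i + 1 then comp w b T else 0) T = cd (comp w b) T := by
        unfold cd
        refine Finset.sum_congr rfl fun j hj => ?_
        have hj' : j ∉ T := by simpa using hj
        beta_reduce
        rw [if_pos (by rw [Finset.card_insert_of_notMem hj', hc])]
      rw [h1, ← comp_kD, hw2, comp_nsmul, hcz, if_pos rfl]
    · have h1 : cd (fun T => if T.card = i + 1 then comp w b T else 0) T = 0 := by
        unfold cd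
        refine Finset.sum_eq_zero fun j hj => ?_
        have hj' : j ∉ T := by simpa using hj
        beta_reduce
        rw [if_neg (by rw [Finset.card_insert_of_notMem hj']; omega), mul_zero]
      have h2 : z T = 0 := by
        by_contra hne
        exact hc (hz T hne).2
      rw [h1, Pi.smul_apply, h2, smul_zero]

/-- for all but finitely many primes the Betti numbers of all powers are those over `ℚ` -/
theorem exists_good (α : Γ → Fin n →₀ ℕ) : ∃ N : ℕ, 0 < N ∧ ∀ (p : ℕ) [Fact p.Prime], ¬ p ∣ N →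
    ∀ h i : ℕ, betti (ZMod p) ((Ideal.span ((fun a => monomial a (1 : ZMod p)) '' Set.range α)) ^ h) i
      = betti ℚ ((Ideal.span ((fun a => monomial a (1 : ℚ)) '' Set.range α)) ^ h) i := by
  classical
  obtain ⟨N, hN, hN2⟩ := uniform_span α
  refine ⟨N, hN, fun p _ hp h i => ?_⟩
  apply betti_eq_of_hd
  intro b
  have hrk : ∀ i, rk (ZMod p) (Qf (PU α h) b) i = rk ℚ (Qf (PU α h) b) i := by
    intro i
    cases i with
    | zero => rw [rk_zero, rk_zero]
    | succ i =>
      apply le_antisymm (rk_le _ _ _)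
      unfold rk
      rw [map_Ch_eq_span, map_Ch_eq_span]
      apply finrank_span_ge p _ N hp
      intro z hz
      have h1 := map_Ch_eq_span ℤ (Qf (PU α h) b) (i + 1)
      simp only [Int.cast_id] at h1
      have h2 := hN2 h b i z
      rw [h1] at h2
      exact h2 hz
  exact hd_eq_of_rk _ (Qf_down (fun _ _ => PU_mono α h) b) i (hrk i) (hrk (i + 1))

end final

end Pool.Agent.R371.MB
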